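import Mathlib

/-!
# Homomorphisms from completely metrizable groups to `ℤ` (Dudley)
-/

set_option autoImplicit false

open Set Filter Topology Function

namespace Pool.Agent.X277.Ham

/-- sequences by recursion on the history -/
noncomputable def hist {α : Type*} [Inhabited α] (F : ℕ → (ℕ → α) → α) (k : ℕ) : α :=
  F k (fun i => if _h : i < k then hist F i else default)
termination_by k

theorem exists_hist {α : Type*} [Inhabited α] (P : ℕ → (ℕ → α) → α → Prop)
    (hP : ∀ k f, ∃ a, P k f a)
    (hc : ∀ k f g a, (∀ i < k, f i = g i) → P k f a → P k g a) :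
    ∃ f : ℕ → α, ∀ k, P k f (f k) := by
  choose F hF using hP
  refine ⟨hist F, fun k => ?_⟩
  have h1 : hist F k = F k (fun i => if _h : i < k then hist F i else default) := by
    rw [hist]
  rw [h1]
  refine hc k _ _ _ ?_ (hF k _)
  intro i hi
  simp only [dif_pos hi]

variable {T : Type*} [Group T]

/-- the nested products -/
def comp (f : ℕ → T × ℕ) (j : ℕ) : ℕ → T → T
  | 0, y => y
  | l + 1, y => comp f j l ((f (j + l)).1 * y ^ (f (j + l)).2)

theorem comp_congr {f g : ℕ → T × ℕ} (j l : ℕ) (h : ∀ i < j + l, f i = g i) :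
    comp f j l = comp g j l := by
  induction l with
  | zero => rfl
  | succ l ih =>
    funext y
    show comp f j l _ = comp g j l _
    rw [ih fun i hi => h i (by omega), h (j + l) (by omega)]

theorem comp_left (f : ℕ → T × ℕ) (j l : ℕ) (y : T) :
    comp f j (l + 1) y = (f j).1 * (comp f (j + 1) l y) ^ (f j).2 := by
  induction l generalizing y with
  | zero => rfl
  | succ l ih =>
    show comp f j (l + 1) ((f (j + (l + 1))).1 * y ^ (f (j + (l + 1))).2) = _
    rw [ih]
    congr 2
    show _ = comp f (j + 1) l ((f (j + 1 + l)).1 * y ^ (f (j + 1 + l)).2)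
    rw [show j + 1 + l = j + (l + 1) by ring]

theorem comp_cont [TopologicalSpace T] [IsTopologicalGroup T] (f : ℕ → T × ℕ) (j l : ℕ) :
    Continuous (comp f j l) := by
  induction l with
  | zero => exact continuous_id
  | succ l ih => exact ih.comp (continuous_const.mul (continuous_pow _))

/-- the arithmetic of Dudley's argument -/
theorem arith (a y : ℕ → ℤ) (m : ℕ → ℕ) (ha : ∀ j, a j ≠ 0)
    (hm : ∀ j, m j = j + 2 + ∑ i ∈ Finset.range (j + 1), (a i).natAbs)
    (hy : ∀ j, y j = a j + m j * y (j + 1)) : False := by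
  have key : ∀ k, y (k + 1) ≠ 0 → ∀ l j, j + l = k →
      k + 2 + ∑ i ∈ Finset.range j, (a i).natAbs ≤ (y j).natAbs := by
    intro k hk l
    induction l with
    | zero =>
      rintro j rfl
      rw [add_zero] at *
      have h1 := hy j
      have h2 := hm j
      rw [Finset.sum_range_succ] at h2
      have h3 : (m j : ℤ) ≤ |(m j : ℤ) * y (j + 1)| := by
        rw [abs_mul, Nat.abs_cast]
        have : 1 ≤ |y (j + 1)| := Int.one_le_abs hk
        nlinarith
      have h4 : |(m j : ℤ) * y (j + 1)| ≤ |y j| + |a j| := by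
        have : (m j : ℤ) * y (j + 1) = y j - a j := by rw [h1]; ring
        rw [this]
        exact abs_sub _ _
      have h5 : (m j : ℤ) ≤ (y j).natAbs + (a j).natAbs := by
        rw [Int.natCast_natAbs, Int.natCast_natAbs]
        linarith
      have h6 : m j ≤ (y j).natAbs + (a j).natAbs := by exact_mod_cast h5
      omega
    | succ l ih =>
      intro j hj
      have h0 := ih (j + 1) (by omega)
      rw [Finset.sum_range_succ] at h0
      have h1 := hy j
      have h2 := hm j
      have h3 : |y (j + 1)| ≤ |(m j : ℤ) * y (j + 1)| := by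
        rw [abs_mul, Nat.abs_cast]
        have h7 : 1 ≤ (m j : ℤ) := by
          rw [h2]
          push_cast
          have : (0 : ℤ) ≤ ∑ i ∈ Finset.range (j + 1), |a i| :=
            Finset.sum_nonneg fun i _ => abs_nonneg _
          linarith
        have : 0 ≤ |y (j + 1)| := abs_nonneg _
        nlinarith
      have h4 : |(m j : ℤ) * y (j + 1)| ≤ |y j| + |a j| := by
        have : (m j : ℤ) * y (j + 1) = y j - a j := by rw [h1]; ring
        rw [this]
        exact abs_sub _ _
      have h5 : ((y (j + 1)).natAbs : ℤ) ≤ (y j).natAbs + (a j).natAbs := by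
        rw [Int.natCast_natAbs, Int.natCast_natAbs, Int.natCast_natAbs]
        linarith
      have h6 : (y (j + 1)).natAbs ≤ (y j).natAbs + (a j).natAbs := by exact_mod_cast h5
      omega
  have h1 : ∀ k, y (k + 1) ≠ 0 → k + 2 ≤ (y 0).natAbs := by
    intro k hk
    have := key k hk k 0 (by omega)
    simpa using this
  set N := (y 0).natAbs with hN
  by_cases h2 : y (N + 1 + 1) = 0
  · have h3 := hy (N + 1)
    rw [h2, mul_zero, add_zero] at h3
    have h4 := h1 N (by rw [h3]; exact ha _)
    omega
  · have := h1 (N + 1) h2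
    omega

/-- Dudley: homomorphisms from a completely metrizable group to `ℤ` have an open kernel -/
theorem dudley {T : Type*} [Group T] [MetricSpace T] [CompleteSpace T] [IsTopologicalGroup T]
    (c : T →* Multiplicative ℤ) : IsOpen (c.ker : Set T) := by
  by_contra hno
  have hnot : ∀ U ∈ 𝓝 (1 : T), ∃ ε ∈ U, c ε ≠ 1 := by
    intro U hU
    by_contra hcon
    push Not at hcon
    exact hno (Subgroup.isOpen_of_mem_nhds c.ker (g := 1) (Filter.mem_of_superset hU
      fun x hx => hcon x hx))
  have : Inhabited (T × ℕ) := ⟨(1, 0)⟩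
  obtain ⟨f, hf⟩ := exists_hist (α := T × ℕ)
    (fun k f a => c a.1 ≠ 1 ∧
      (∀ j ≤ k, dist (comp f j (k - j) a.1) (comp f j (k - j) 1) < (1 / 2) ^ k) ∧
      a.2 = k + 2 + (∑ i ∈ Finset.range k, (Multiplicative.toAdd (c (f i).1)).natAbs +
        (Multiplicative.toAdd (c a.1)).natAbs)) (by
      intro k f
      have h1 : ∀ j, ∀ᶠ ε in 𝓝 (1 : T),
          dist (comp f j (k - j) ε) (comp f j (k - j) 1) < (1 / 2) ^ k := by
        intro j
        have h2 : Continuous fun ε => dist (comp f j (k - j) ε) (comp f j (k - j) 1) :=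
          (comp_cont f j (k - j)).dist continuous_const
        exact h2.continuousAt.eventually_lt continuousAt_const (by
          rw [dist_self]
          positivity)
      have h3 : ∀ᶠ ε in 𝓝 (1 : T), ∀ j ∈ Finset.range (k + 1),
          dist (comp f j (k - j) ε) (comp f j (k - j) 1) < (1 / 2) ^ k :=
        (Filter.eventually_all_finset _).2 fun j _ => h1 j
      obtain ⟨ε, hε1, hε2⟩ := hnot _ h3
      exact ⟨(ε, k + 2 + (∑ i ∈ Finset.range k, (Multiplicative.toAdd (c (f i).1)).natAbs +
        (Multiplicative.toAdd (c ε)).natAbs)), hε2,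
        fun j hj => hε1 j (Finset.mem_range.2 (by omega)), rfl⟩) (by
      rintro k f g a hfg ⟨h1, h2, h3⟩
      refine ⟨h1, fun j hj => ?_, ?_⟩
      · rw [← comp_congr (f := f) (g := g) j (k - j) fun i hi => hfg i (by omega)]
        exact h2 j hj
      · rw [h3]
        congr 2
        refine Finset.sum_congr rfl fun i hi => ?_
        rw [hfg i (Finset.mem_range.1 hi)])
  -- the limits
  have hY : ∀ j, ∃ x, Tendsto (fun l => comp f j l 1) atTop (𝓝 x) := by
    intro j
    apply cauchySeq_tendsto_of_complete
    refine cauchySeq_of_le_geometric (1 / 2) 1 (by norm_num) fun l => ?_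
    have h1 := (hf (j + l)).2.1 j (by omega)
    rw [Nat.add_sub_cancel_left] at h1
    have h2 : comp f j (l + 1) 1 = comp f j l (f (j + l)).1 := by
      show comp f j l ((f (j + l)).1 * 1 ^ (f (j + l)).2) = _
      rw [one_pow, mul_one]
    rw [h2, dist_comm, one_mul]
    refine h1.le.trans ?_
    exact pow_le_pow_of_le_one (by norm_num) (by norm_num) (by omega)
  choose x hx using hY
  have hrec : ∀ j, x j = (f j).1 * (x (j + 1)) ^ (f j).2 := by
    intro j
    have h1 : Tendsto (fun l => comp f j (l + 1) 1) atTop (𝓝 (x j)) :=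
      (hx j).comp (tendsto_add_atTop_nat 1)
    have h2 : Tendsto (fun l => comp f j (l + 1) 1) atTop
        (𝓝 ((f j).1 * (x (j + 1)) ^ (f j).2)) := by
      simp only [comp_left]
      exact ((hx (j + 1)).pow _).const_mul _
    exact tendsto_nhds_unique h1 h2
  refine arith (fun j => Multiplicative.toAdd (c (f j).1)) (fun j => Multiplicative.toAdd (c (x j)))
    (fun j => (f j).2) ?_ ?_ ?_
  · intro j hj
    exact (hf j).1 (Multiplicative.toAdd.injective hj)
  · intro j
    rw [(hf j).2.2, Finset.sum_range_succ]
  · intro j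
    rw [hrec j, map_mul, map_pow, toAdd_mul, toAdd_pow, nsmul_eq_mul]

end Pool.Agent.X277.Ham
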