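import Pool.Agent.Y453.HB.Fin
import Pool.Agent.H839R2.Ode.Flow

/-!
# Flows of compactly supported smooth Hamiltonians
-/

set_option autoImplicit false

open Set Filter Topology Function
open scoped NNReal

namespace Pool.Agent.X277.Ham

open Pool.Agent.Y453.HB

section General

variable {F : Type*} [NormedAddCommGroup F] [NormedSpace ℝ F] [CompleteSpace F]

omit [CompleteSpace F] in
theorem ode_unique {W : F → F} {K : ℝ≥0} (hK : LipschitzWith K W) {α β : ℝ → F}
    (hα : ∀ t, HasDerivAt α (W (α t)) t) (hβ : ∀ t, HasDerivAt β (W (β t)) t) {t₀ : ℝ}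
    (h : α t₀ = β t₀) : α = β :=
  ODE_solution_unique_univ (v := fun _ => W) (s := fun _ => univ) (K := K)
    (fun _ => hK.lipschitzOnWith) (fun t => ⟨hα t, mem_univ _⟩) (fun t => ⟨hβ t, mem_univ _⟩) h

theorem exists_flow (W : F → F) (K L : ℝ≥0) (hK : LipschitzWith K W) (hL : ∀ x, ‖W x‖ ≤ L) :
    ∃ Φ : ℝ → F → F, (∀ x, Φ 0 x = x) ∧ (∀ x t, HasDerivAt (fun s => Φ s x) (W (Φ t x)) t) ∧
      (∀ s t x, Φ s (Φ t x) = Φ (s + t) x) ∧ ∀ t, Continuous (Φ t) := by
  obtain ⟨A, hA0, hA1, hA2⟩ := Pool.Agent.H839R2.Ode.exists_flow W K L hK hL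
  have hK' : LipschitzWith K (fun x => -W x) := by
    intro x y
    rw [edist_neg_neg]
    exact hK x y
  obtain ⟨B, hB0, hB1, hB2⟩ := Pool.Agent.H839R2.Ode.exists_flow (fun x => -W x) K L hK'
    (fun x => by rw [norm_neg]; exact hL x)
  have hAB : ∀ x t, B x t = A x (-t) := by
    intro x t
    have h1 : ∀ t, HasDerivAt (fun s => A x (-s)) (-W (A x (-t))) t := by
      intro t
      have h2 := (hA1 x (-t)).scomp t (hasDerivAt_neg t)
      rw [neg_one_smul] at h2
      exact h2
    have h3 := ode_unique hK' (hB1 x) h1 (t₀ := 0) (by simp only [neg_zero, hB0, hA0])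
    exact congrFun h3 t
  refine ⟨fun t x => A x t, hA0, hA1, fun s t x => ?_, fun t => ?_⟩
  · have h1 : ∀ r, HasDerivAt (fun r => A x (r + t)) (W (A x (r + t))) r := by
      intro r
      exact (hA1 x (r + t)).comp_add_const r t
    have h3 := ode_unique hK (hA1 (A x t)) h1 (t₀ := 0) (by simp only [zero_add, hA0])
    exact congrFun h3 s
  · rcases le_total 0 t with ht | ht
    · have : LipschitzWith (Real.toNNReal (Real.exp (K * t))) (fun x => A x t) := by
        refine LipschitzWith.of_dist_le_mul fun x y => ?_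
        rw [Real.coe_toNNReal _ (Real.exp_pos _).le, mul_comm]
        exact hA2 x y t ht
      exact this.continuous
    · have h1 : (fun x => A x t) = fun x => B x (-t) := by
        funext x
        rw [hAB, neg_neg]
      show Continuous (fun x => A x t)
      rw [h1]
      have : LipschitzWith (Real.toNNReal (Real.exp (K * (-t)))) (fun x => B x (-t)) := by
        refine LipschitzWith.of_dist_le_mul fun x y => ?_
        rw [Real.coe_toNNReal _ (Real.exp_pos _).le, mul_comm]
        exact hB2 x y (-t) (by linarith)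
      exact this.continuous

/-- flows of time dependent vector fields, bounded and Lipschitz in space and time -/
theorem exists_flow_time (X : ℝ → F → F) (K L : ℝ≥0)
    (hK : LipschitzWith K (Function.uncurry X)) (hL : ∀ t x, ‖X t x‖ ≤ L) :
    ∃ ψ : ℝ → (F ≃ₜ F), (∀ x, ψ 0 x = x) ∧
      (∀ t x, HasDerivAt (fun s => ψ s x) (X t (ψ t x)) t) ∧
      (∀ s t x, dist (ψ s x) (ψ t x) ≤ L * dist s t) ∧
      (∀ (α : ℝ → F) (t₀ : ℝ), (∀ t, HasDerivAt α (X t (α t)) t) →
        ∀ t, α t = ψ t ((ψ t₀).symm (α t₀))) := by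
  set W : ℝ × F → ℝ × F := fun z => (1, X z.1 z.2) with hW
  have hWK : LipschitzWith (max 0 K) W := (LipschitzWith.const (1 : ℝ)).prodMk hK
  have hWL : ∀ z, ‖W z‖ ≤ (max 1 L : ℝ≥0) := by
    intro z
    rw [hW, Prod.norm_def, NNReal.coe_max]
    simp only [norm_one, NNReal.coe_one]
    exact max_le_max le_rfl (hL _ _)
  obtain ⟨Φ, h0, h1, h2, h3⟩ := exists_flow W _ _ hWK hWL
  have hfst : ∀ t z, (Φ t z).1 = z.1 + t := by
    intro t z
    have hd : ∀ t, HasDerivAt (fun s => (Φ s z).1 - s) 0 t := by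
      intro t
      have h4 : HasDerivAt (fun s => (Φ s z).1) (W (Φ t z)).1 t :=
        (ContinuousLinearMap.fst ℝ ℝ F).hasFDerivAt.comp_hasDerivAt t (h1 z t)
      have := h4.sub (hasDerivAt_id t)
      rw [show (W (Φ t z)).1 - 1 = 0 from sub_self 1] at this
      exact this
    have hc := is_const_of_deriv_eq_zero (f := fun s => (Φ s z).1 - s)
      (fun t => (hd t).differentiableAt) (fun t => (hd t).deriv) t 0
    simp only [h0, sub_zero] at hc
    linarith
  have hpair : ∀ s t x, Φ t (s, x) = (s + t, (Φ t (s, x)).2) := by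
    intro s t x
    exact Prod.ext (hfst t (s, x)) rfl
  have hbase : ∀ x, (Φ 0 ((0 : ℝ), x)) = (0, x) := fun x => h0 _
  -- the maps
  refine ⟨fun t => ⟨⟨fun x => (Φ t (0, x)).2, fun x => (Φ (-t) (t, x)).2, ?_, ?_⟩, ?_, ?_⟩,
    ?_, ?_, ?_, ?_⟩
  · intro x
    show (Φ (-t) (t, (Φ t (0, x)).2)).2 = x
    have e1 : (t, (Φ t (0, x)).2) = Φ t (0, x) := by rw [hpair 0 t x, zero_add]
    rw [e1, h2, neg_add_cancel, h0]
  · intro x
    show (Φ t (0, (Φ (-t) (t, x)).2)).2 = x
    have e1 : ((0 : ℝ), (Φ (-t) (t, x)).2) = Φ (-t) (t, x) := by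
      rw [hpair t (-t) x, add_neg_cancel]
    rw [e1, h2, add_neg_cancel, h0]
  · exact continuous_snd.comp ((h3 t).comp (continuous_const.prodMk continuous_id))
  · exact continuous_snd.comp ((h3 (-t)).comp (continuous_const.prodMk continuous_id))
  · intro x
    show (Φ 0 (0, x)).2 = x
    rw [h0]
  · intro t x
    show HasDerivAt (fun s => (Φ s (0, x)).2) (X t (Φ t (0, x)).2) t
    have h4 : HasDerivAt (fun s => (Φ s (0, x)).2) (W (Φ t (0, x))).2 t :=
      (ContinuousLinearMap.snd ℝ ℝ F).hasFDerivAt.comp_hasDerivAt t (h1 (0, x) t)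
    rw [hpair 0 t x, zero_add] at h4
    exact h4
  · intro s t x
    show dist (Φ s (0, x)).2 (Φ t (0, x)).2 ≤ L * dist s t
    have hb : ∀ r ∈ (univ : Set ℝ), HasDerivWithinAt (fun s => (Φ s (0, x)).2)
        (X r (Φ r (0, x)).2) univ r := by
      intro r _
      have h4 : HasDerivAt (fun s => (Φ s (0, x)).2) (W (Φ r (0, x))).2 r :=
        (ContinuousLinearMap.snd ℝ ℝ F).hasFDerivAt.comp_hasDerivAt r (h1 (0, x) r)
      rw [hpair 0 r x, zero_add] at h4
      exact h4.hasDerivWithinAt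
    have := convex_univ.norm_image_sub_le_of_norm_hasDerivWithin_le (f := fun s => (Φ s (0, x)).2)
      hb (C := L) (fun r _ => hL _ _) (mem_univ t) (mem_univ s)
    rw [dist_eq_norm, dist_eq_norm]
    exact this
  · intro α t₀ hα t
    show α t = (Φ t (0, (Φ (-t₀) (t₀, α t₀)).2)).2
    have e1 : ((0 : ℝ), (Φ (-t₀) (t₀, α t₀)).2) = Φ (-t₀) (t₀, α t₀) := by
      rw [hpair t₀ (-t₀) (α t₀), add_neg_cancel]
    rw [e1, h2]
    have hβ : ∀ s, HasDerivAt (fun s => (s, α s)) (W (s, α s)) s := by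
      intro s
      exact (hasDerivAt_id s).prodMk (hα s)
    have hγ : ∀ s, HasDerivAt (fun s => Φ (s + -t₀) (t₀, α t₀)) (W (Φ (s + -t₀) (t₀, α t₀))) s := by
      intro s
      exact (h1 (t₀, α t₀) (s + -t₀)).comp_add_const s (-t₀)
    have h5 := ode_unique hWK hβ hγ (t₀ := t₀) (by simp only [add_neg_cancel, h0])
    have h6 := congrFun h5 t
    exact congrArg Prod.snd h6

end General

end Pool.Agent.X277.Ham
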