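import Pool.Agent.X277.Ham.NoHom

/-!
# Fragmentation of Hamiltonian diffeomorphisms
-/

set_option autoImplicit false

open Set Filter Topology Function
open scoped NNReal

namespace Pool.Agent.X277.Ham

open Pool.Agent.Y453.HB

variable {n : ℕ}

/-- Hamiltonian diffeomorphisms supported in `K` and in a ball of radius `η` -/
def Small (K : Set (E n)) (η : ℝ) : Set (E n ≃ₜ E n) :=
  {g | IsHam g ∧ (∀ x, x ∉ K → g x = x) ∧ ∃ p, ∀ x, η ≤ dist x p → g x = x}

theorem IsIso.uniq_on {H : ℝ → E n → ℝ} {K : Set (E n)} (hK : IsCompact K) (hH : Good H K)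
    {C : ℝ≥0} {ψ : ℝ → (E n ≃ₜ E n)} (h : IsIso H C ψ) {α : ℝ → E n} {s t : ℝ} (hst : s ≤ t)
    (hα : ∀ r ∈ Icc s t, HasDerivAt α (XH (H r) (α r)) r) : α t = ψ t ((ψ s)⁻¹ (α s)) := by
  have h1 := XH_smooth hH.smooth
  have h2 : HasCompactSupport (Function.uncurry fun t x => XH (H t) x) := by
    refine HasCompactSupport.intro (isCompact_Icc.prod hK : IsCompact (Icc (0 : ℝ) 1 ×ˢ K)) ?_
    rintro ⟨t, x⟩ hz
    show XH (H t) x = 0
    by_cases ht : t ∈ Icc (0 : ℝ) 1
    · exact hH.XH_space hK t x fun hx => hz ⟨ht, hx⟩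
    · exact hH.XH_time t x ht
  obtain ⟨L, hL⟩ := ContDiff.lipschitzWith_of_hasCompactSupport h2 h1 (by norm_num)
  have hv : ∀ r, LipschitzWith L fun x => XH (H r) x := by
    intro r
    refine LipschitzWith.of_dist_le_mul fun x y => ?_
    have h3 := hL.dist_le_mul (r, x) (r, y)
    have h4 : dist (r, x) (r, y) = dist x y := by
      rw [Prod.dist_eq, dist_self, max_eq_right dist_nonneg]
    rw [h4] at h3
    exact h3
  have hβ : ∀ r, HasDerivAt (fun r => ψ r ((ψ s)⁻¹ (α s))) (XH (H r) (ψ r ((ψ s)⁻¹ (α s)))) r :=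
    fun r => h.deriv r _
  have h3 := ODE_solution_unique (v := fun r x => XH (H r) x) (K := L) (f := α)
    (g := fun r => ψ r ((ψ s)⁻¹ (α s))) (a := s) (b := t) hv
    (fun r hr => (hα r hr).continuousAt.continuousWithinAt)
    (fun r hr => (hα r (Ico_subset_Icc_self hr)).hasDerivWithinAt)
    (fun r _ => (hβ r).continuousAt.continuousWithinAt)
    (fun r _ => (hβ r).hasDerivWithinAt) (apply_inv_self (ψ s) (α s)).symm
  exact h3 ⟨hst, le_rfl⟩

/-- the bump function -/
noncomputable def bump (η : ℝ) (hη : 0 < η) (p : E n) : ContDiffBump p :=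
  ⟨η / 4, η / 2, by positivity, by linarith⟩

/-- the remaining part -/
noncomputable def rem (η : ℝ) (hη : 0 < η) : List (E n) → E n → ℝ
  | [], _ => 1
  | p :: l, x => (1 - bump η hη p x) * rem η hη l x

theorem rem_smooth (η : ℝ) (hη : 0 < η) (l : List (E n)) :
    ContDiff ℝ ((⊤ : ℕ∞) : WithTop ℕ∞) (rem η hη l) := by
  induction l with
  | nil => exact contDiff_const
  | cons p l ih => exact (contDiff_const.sub (bump η hη p).contDiff).mul ih

theorem rem_zero (η : ℝ) (hη : 0 < η) (l : List (E n)) (x : E n)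
    (h : ∃ p ∈ l, dist x p < η / 4) : rem η hη l x = 0 := by
  induction l with
  | nil => simp at h
  | cons p l ih =>
    obtain ⟨q, hq, hx⟩ := h
    show (1 - bump η hη p x) * rem η hη l x = 0
    rcases List.mem_cons.1 hq with rfl | hq
    · have : bump η hη q x = 1 :=
        (bump η hη q).one_of_mem_closedBall (Metric.mem_closedBall.2 hx.le)
      rw [this, sub_self, zero_mul]
    · rw [ih ⟨q, hq, hx⟩, mul_zero]

/-- the partial Hamiltonian -/
noncomputable def part (η : ℝ) (hη : 0 < η) (H : ℝ → E n → ℝ) (l : List (E n)) (t : ℝ) (x : E n) :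
    ℝ := (1 - rem η hη l x) * H t x

theorem part_good {η : ℝ} (hη : 0 < η) {H : ℝ → E n → ℝ} {K : Set (E n)} (hH : Good H K)
    (l : List (E n)) : Good (part η hη H l) K := by
  refine ⟨?_, fun t x hx => ?_, fun t x ht => ?_⟩
  · exact (contDiff_const.sub ((rem_smooth η hη l).comp contDiff_snd)).mul hH.smooth
  · show (1 - rem η hη l x) * H t x = 0
    rw [hH.space t x hx, mul_zero]
  · show (1 - rem η hη l x) * H t x = 0
    rw [hH.time t x ht, mul_zero]

theorem part_nil {η : ℝ} (hη : 0 < η) (H : ℝ → E n → ℝ) (t : ℝ) (x : E n) :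
    part η hη H [] t x = 0 := by
  show (1 - 1) * H t x = 0
  rw [sub_self, zero_mul]

theorem part_all {η : ℝ} (hη : 0 < η) {H : ℝ → E n → ℝ} {K : Set (E n)} (hH : Good H K)
    (l : List (E n)) (hl : ∀ x ∈ K, ∃ p ∈ l, dist x p < η / 4) : part η hη H l = H := by
  funext t x
  show (1 - rem η hη l x) * H t x = H t x
  by_cases hx : x ∈ K
  · rw [rem_zero η hη l x (hl x hx), sub_zero, one_mul]
  · rw [hH.space t x hx, mul_zero]

theorem part_cons {η : ℝ} (hη : 0 < η) (H : ℝ → E n → ℝ) (p : E n) (l : List (E n)) (t : ℝ)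
    {x : E n} (hx : η / 2 < dist x p) : XH (part η hη H (p :: l) t) x = XH (part η hη H l t) x := by
  apply XH_congr
  have h1 : {y : E n | η / 2 < dist y p} ∈ 𝓝 x :=
    (isOpen_lt continuous_const (continuous_id.dist continuous_const)).mem_nhds hx
  filter_upwards [h1] with y hy
  have h2 : bump η hη p y = 0 := (bump η hη p).zero_of_le_dist (le_of_lt hy)
  show (1 - (1 - bump η hη p y) * rem η hη l y) * H t y = (1 - rem η hη l y) * H t y
  rw [h2, sub_zero, one_mul]

theorem frag_list {η : ℝ} (hη : 0 < η) {H : ℝ → E n → ℝ} {K : Set (E n)} (hK : IsCompact K)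
    (hK1 : K ⊆ {p : E n | Q p < 1}) (hH : Good H K) (l : List (E n)) :
    ∃ δ > 0, ∀ C ψ, IsIso (part η hη H l) C ψ → ∀ s t, s ≤ t → t - s < δ →
      ψ t * (ψ s)⁻¹ ∈ Subgroup.closure (Small K η) := by
  induction l with
  | nil =>
    refine ⟨1, one_pos, fun C ψ hψ s t _ _ => ?_⟩
    have h1 : Good (part η hη H []) (∅ : Set (E n)) :=
      ⟨(part_good hη hH []).smooth, fun t x _ => part_nil hη H t x,
        fun t x _ => part_nil hη H t x⟩
    have h2 : ∀ t, ψ t = 1 := fun t => Homeomorph.ext fun x =>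
      hψ.fix isCompact_empty h1 t x (notMem_empty x)
    rw [h2, h2, inv_one, mul_one]
    exact Subgroup.one_mem _
  | cons p l ih =>
    obtain ⟨δ, hδ, ih⟩ := ih
    obtain ⟨C₀, ψ₀, hψ₀⟩ := exists_iso hK (part_good hη hH l)
    refine ⟨min δ (η / 2 / (C₀ + 1)), lt_min hδ (by positivity), fun C ψ hψ s t hst ht => ?_⟩
    have h1 := ih C₀ ψ₀ hψ₀ s t hst (ht.trans_le (min_le_left _ _))
    have h2 : C₀ * (t - s) < η / 2 := by
      have h3 : t - s < η / 2 / (C₀ + 1) := ht.trans_le (min_le_right _ _)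
      rw [lt_div_iff₀ (by positivity)] at h3
      have h4 : 0 ≤ t - s := by linarith
      nlinarith
    have h3 : (ψ t * (ψ s)⁻¹) * (ψ₀ t * (ψ₀ s)⁻¹)⁻¹ ∈ Small K η := by
      have hG := part_good hη hH l
      have hG' := part_good hη hH (p :: l)
      refine ⟨ham_mul (hψ.isHam hK hK1 hG' s t) (ham_inv (hψ₀.isHam hK hK1 hG s t)), ?_, p, ?_⟩
      · intro x hx
        have e1 : ∀ r, (ψ r)⁻¹ x = x := by
          intro r
          have := inv_apply_self (ψ r) x
          rwa [hψ.fix hK hG' r x hx] at this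
        have e2 : ∀ r, (ψ₀ r)⁻¹ x = x := by
          intro r
          have := inv_apply_self (ψ₀ r) x
          rwa [hψ₀.fix hK hG r x hx] at this
        rw [mul_inv_rev, inv_inv, mul_apply, mul_apply, mul_apply, e2, hψ₀.fix hK hG s x hx, e1,
          hψ.fix hK hG' t x hx]
      · intro x hx
        set z := (ψ₀ t)⁻¹ x with hz
        have hzt : ψ₀ t z = x := apply_inv_self (ψ₀ t) x
        have hα : ∀ r ∈ Icc s t, HasDerivAt (fun r => ψ₀ r z)
            (XH (part η hη H (p :: l) r) (ψ₀ r z)) r := by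
          intro r hr
          have h5 : dist (ψ₀ r z) x ≤ C₀ * (t - s) := by
            have := hψ₀.lip r t z
            rw [hzt, Real.dist_eq, abs_sub_comm, abs_of_nonneg (by linarith [hr.2])] at this
            refine this.trans (mul_le_mul_of_nonneg_left (by linarith [hr.1]) C₀.2)
          have h6 : η / 2 < dist (ψ₀ r z) p := by
            have := dist_triangle x (ψ₀ r z) p
            rw [dist_comm x (ψ₀ r z)] at this
            linarith
          rw [part_cons hη H p l r h6]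
          exact hψ₀.deriv r z
        have h7 := hψ.uniq_on hK hG' hst hα
        simp only [hzt] at h7
        rw [mul_inv_rev, inv_inv, mul_apply, mul_apply, mul_apply]
        exact h7.symm
    have h4 : ψ t * (ψ s)⁻¹ = ((ψ t * (ψ s)⁻¹) * (ψ₀ t * (ψ₀ s)⁻¹)⁻¹) * (ψ₀ t * (ψ₀ s)⁻¹) := by
      rw [inv_mul_cancel_right]
    rw [h4]
    exact Subgroup.mul_mem _ (Subgroup.subset_closure h3) h1

/-- Hamiltonian diffeomorphisms are products of Hamiltonian diffeomorphisms with small support -/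
theorem frag {u : E n ≃ₜ E n} (hu : IsHam u) :
    ∃ K : Set (E n), IsCompact K ∧ K ⊆ {p : E n | Q p < 1} ∧
      ∀ η > 0, u ∈ Subgroup.closure (Small K η) := by
  obtain ⟨H, K, hK, hK1, hH, h1⟩ := exists_good hu
  refine ⟨K, hK, hK1, fun η hη => ?_⟩
  obtain ⟨C, ψ, hψ⟩ := exists_iso hK hH
  rw [← h1 C ψ hψ]
  obtain ⟨T, -, hT, hT2⟩ := hK.finite_cover_balls (show 0 < η / 4 by positivity)
  set l : List (E n) := hT.toFinset.toList with hl
  have hl2 : ∀ x ∈ K, ∃ p ∈ l, dist x p < η / 4 := by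
    intro x hx
    obtain ⟨p, hp, hxp⟩ := mem_iUnion₂.1 (hT2 hx)
    exact ⟨p, by rw [hl, Finset.mem_toList, hT.mem_toFinset]; exact hp, hxp⟩
  obtain ⟨δ, hδ, h2⟩ := frag_list hη hK hK1 hH l
  rw [part_all hη hH l hl2] at h2
  obtain ⟨N, hN⟩ := exists_nat_gt (1 / δ)
  have hN0 : (0 : ℝ) < N := lt_of_le_of_lt (by positivity) hN
  have h3 : ∀ k : ℕ, ψ (k / N) ∈ Subgroup.closure (Small K η) := by
    intro k
    induction k with
    | zero =>
      rw [Nat.cast_zero, zero_div, hψ.zero]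
      exact Subgroup.one_mem _
    | succ k ih =>
      have h4 : ψ ((k + 1 : ℕ) / N) = (ψ ((k + 1 : ℕ) / N) * (ψ (k / N))⁻¹) * ψ (k / N) := by
        rw [inv_mul_cancel_right]
      rw [h4]
      refine Subgroup.mul_mem _ (h2 C ψ hψ _ _ ?_ ?_) ih
      · push_cast
        gcongr
        linarith
      · push_cast
        rw [← sub_div, add_sub_cancel_left]
        rw [div_lt_iff₀ hN0]
        rw [div_lt_iff₀ hδ] at hN
        linarith
  have h5 := h3 N
  rwa [div_self hN0.ne'] at h5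

theorem small_mono {K L : Set (E n)} {η η' : ℝ} (hKL : K ⊆ L) (hη : η ≤ η') :
    Small K η ⊆ Small L η' := by
  rintro g ⟨h1, h2, p, h3⟩
  exact ⟨h1, fun x hx => h2 x fun h => hx (hKL h), p, fun x hx => h3 x (hη.trans hx)⟩

end Pool.Agent.X277.Ham
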