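import Pool.Agent.X277.Ham.Flow

/-!
# Isotopies of compactly supported smooth Hamiltonians
-/

set_option autoImplicit false

open Set Filter Topology Function
open scoped NNReal

namespace Pool.Agent.X277.Ham

open Pool.Agent.Y453.HB

variable {n : ℕ}

/-- a smooth Hamiltonian, zero off `[0, 1] × K` -/
structure Good (H : ℝ → E n → ℝ) (K : Set (E n)) : Prop where
  smooth : ContDiff ℝ ((⊤ : ℕ∞) : WithTop ℕ∞) (Function.uncurry H)
  space : ∀ t x, x ∉ K → H t x = 0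
  time : ∀ t x, t ∉ Icc (0 : ℝ) 1 → H t x = 0

/-- `ψ` is the flow of `H` -/
structure IsIso (H : ℝ → E n → ℝ) (C : ℝ≥0) (ψ : ℝ → (E n ≃ₜ E n)) : Prop where
  zero : ψ 0 = 1
  deriv : ∀ t x, HasDerivAt (fun s => ψ s x) (XH (H t) (ψ t x)) t
  lip : ∀ s t x, dist (ψ s x) (ψ t x) ≤ C * dist s t
  unique : ∀ (α : ℝ → E n) (t₀ : ℝ), (∀ t, HasDerivAt α (XH (H t) (α t)) t) →
    ∀ t, α t = ψ t ((ψ t₀)⁻¹ (α t₀))

theorem fderiv_slice {H : ℝ → E n → ℝ}
    (hH : ContDiff ℝ ((⊤ : ℕ∞) : WithTop ℕ∞) (Function.uncurry H)) (t : ℝ) (x v : E n) :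
    fderiv ℝ (H t) x v = fderiv ℝ (Function.uncurry H) (t, x) (0, v) := by
  have h1 : HasFDerivAt (fun y : E n => (t, y)) (ContinuousLinearMap.inr ℝ ℝ (E n)) x :=
    hasFDerivAt_prodMk_right t x
  have h2 : HasFDerivAt (Function.uncurry H) (fderiv ℝ (Function.uncurry H) (t, x)) (t, x) :=
    ((hH.differentiable (by simp)) (t, x)).hasFDerivAt
  have h3 := h2.comp x h1
  have h4 : fderiv ℝ (H t) x = (fderiv ℝ (Function.uncurry H) (t, x)).comp
      (ContinuousLinearMap.inr ℝ ℝ (E n)) := h3.fderiv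
  rw [h4]
  rfl

theorem XH_smooth {H : ℝ → E n → ℝ}
    (hH : ContDiff ℝ ((⊤ : ℕ∞) : WithTop ℕ∞) (Function.uncurry H)) :
    ContDiff ℝ 1 (Function.uncurry fun t x => XH (H t) x) := by
  have h1 : ContDiff ℝ 1 (fun z : ℝ × E n => fderiv ℝ (Function.uncurry H) z) :=
    hH.fderiv_right (by
      rw [show (1 : WithTop ℕ∞) + 1 = ((2 : ℕ∞) : WithTop ℕ∞) by norm_num]
      exact_mod_cast le_top)
  have h2 : (Function.uncurry fun t x => XH (H t) x) = fun z : ℝ × E n =>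
      ((fun i : Fin n => fderiv ℝ (Function.uncurry H) z
          (0, ((0 : Fin n → ℝ), (Pi.single i (1 : ℝ) : Fin n → ℝ)))),
       (fun i : Fin n => -fderiv ℝ (Function.uncurry H) z
          (0, ((Pi.single i (1 : ℝ) : Fin n → ℝ), (0 : Fin n → ℝ))))) := by
    funext z
    obtain ⟨t, x⟩ := z
    unfold XH
    simp only [Function.uncurry_apply_pair]
    refine Prod.ext ?_ ?_
    · funext i
      exact fderiv_slice hH t x _
    · funext i
      exact congrArg Neg.neg (fderiv_slice hH t x _)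
  rw [h2]
  refine ContDiff.prodMk ?_ ?_
  · rw [contDiff_pi]
    intro i
    exact h1.clm_apply contDiff_const
  · rw [contDiff_pi]
    intro i
    exact (h1.clm_apply contDiff_const).neg

theorem XH_zero_of {h : E n → ℝ} {x : E n} (hh : h =ᶠ[𝓝 x] fun _ => (0 : ℝ)) : XH h x = 0 := by
  have h3 : fderiv ℝ h x = 0 := by
    rw [hh.fderiv_eq]
    simp
  unfold XH
  rw [h3]
  ext <;> simp

theorem XH_congr {h h' : E n → ℝ} {x : E n} (hh : h =ᶠ[𝓝 x] h') : XH h x = XH h' x := by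
  have h3 : fderiv ℝ h x = fderiv ℝ h' x := hh.fderiv_eq
  unfold XH
  rw [h3]

theorem Good.XH_space {H : ℝ → E n → ℝ} {K : Set (E n)} (hH : Good H K) (hK : IsCompact K)
    (t : ℝ) (x : E n) (hx : x ∉ K) : XH (H t) x = 0 := by
  apply XH_zero_of
  filter_upwards [hK.isClosed.isOpen_compl.mem_nhds hx] with z hz using hH.space t z hz

theorem Good.XH_time {H : ℝ → E n → ℝ} {K : Set (E n)} (hH : Good H K)
    (t : ℝ) (x : E n) (ht : t ∉ Icc (0 : ℝ) 1) : XH (H t) x = 0 := by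
  apply XH_zero_of
  exact Eventually.of_forall fun z => hH.time t z ht

theorem exists_iso {H : ℝ → E n → ℝ} {K : Set (E n)} (hK : IsCompact K) (hH : Good H K) :
    ∃ C ψ, IsIso H C ψ := by
  have h1 := XH_smooth hH.smooth
  have h2 : HasCompactSupport (Function.uncurry fun t x => XH (H t) x) := by
    refine HasCompactSupport.intro (isCompact_Icc.prod hK : IsCompact (Icc (0 : ℝ) 1 ×ˢ K)) ?_
    rintro ⟨t, x⟩ hz
    show XH (H t) x = 0
    by_cases ht : t ∈ Icc (0 : ℝ) 1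
    · exact hH.XH_space hK t x fun hx => hz ⟨ht, hx⟩
    · exact hH.XH_time t x ht
  obtain ⟨L, hL⟩ := ContDiff.lipschitzWith_of_hasCompactSupport h2 h1 (by norm_num)
  obtain ⟨C, hC⟩ := h2.exists_bound_of_continuous h1.continuous
  have hC0 : 0 ≤ C := (norm_nonneg _).trans (hC (0, 0))
  obtain ⟨ψ, e0, e1, e2, e3⟩ := exists_flow_time (fun t x => XH (H t) x) L ⟨C, hC0⟩ hL
    (fun t x => hC (t, x))
  refine ⟨⟨C, hC0⟩, ψ, ?_, e1, e2, e3⟩
  exact Homeomorph.ext e0

theorem IsIso.fix {H : ℝ → E n → ℝ} {K : Set (E n)} (hK : IsCompact K) (hH : Good H K) {C : ℝ≥0}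
    {ψ : ℝ → (E n ≃ₜ E n)} (h : IsIso H C ψ) (t : ℝ) (x : E n) (hx : x ∉ K) : ψ t x = x := by
  have h1 : ∀ t, HasDerivAt (fun _ : ℝ => x) (XH (H t) x) t := by
    intro t
    rw [hH.XH_space hK t x hx]
    exact hasDerivAt_const t x
  have h2 := h.unique (fun _ => x) 0 h1 t
  simp only [h.zero, inv_one] at h2
  exact h2.symm

/-- the time change -/
noncomputable def be (t : ℝ) : ℝ := Real.smoothTransition t

theorem be_smooth : ContDiff ℝ ((⊤ : ℕ∞) : WithTop ℕ∞) be := Real.smoothTransition.contDiff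

theorem be_deriv_zero {t : ℝ} (ht : t ∉ Icc (0 : ℝ) 1) : deriv be t = 0 := by
  rw [mem_Icc, not_and_or, not_le, not_le] at ht
  rcases ht with ht | ht
  · have : be =ᶠ[𝓝 t] fun _ => 0 := by
      filter_upwards [Iio_mem_nhds ht] with s hs
      exact Real.smoothTransition.zero_of_nonpos (le_of_lt hs)
    rw [this.deriv_eq]
    simp
  · have : be =ᶠ[𝓝 t] fun _ => 1 := by
      filter_upwards [Ioi_mem_nhds ht] with s hs
      exact Real.smoothTransition.one_of_one_le (le_of_lt hs)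
    rw [this.deriv_eq]
    simp

theorem XH_const_mul {h : E n → ℝ} {p : E n} (c : ℝ) (hh : DifferentiableAt ℝ h p) :
    XH (fun x => c * h x) p = c • XH h p := by
  have h1 := Pool.Agent.Y907.HB.XH_lin (h := h) (h' := h) c 0 hh hh
  rw [zero_smul, add_zero] at h1
  rw [← h1]
  congr 1
  funext x
  ring

theorem diff_slice {H : ℝ → E n → ℝ}
    (hH : ContDiff ℝ ((⊤ : ℕ∞) : WithTop ℕ∞) (Function.uncurry H)) (t : ℝ) (x : E n) :
    DifferentiableAt ℝ (H t) x := by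
  have : ContDiff ℝ ((⊤ : ℕ∞) : WithTop ℕ∞) (fun y : E n => H t y) :=
    hH.comp (contDiff_const.prodMk contDiff_id)
  exact (this.differentiable (by simp)).differentiableAt

theorem exists_good {u : E n ≃ₜ E n} (hu : IsHam u) :
    ∃ (H : ℝ → E n → ℝ) (K : Set (E n)), IsCompact K ∧ K ⊆ {p : E n | Q p < 1} ∧ Good H K ∧
      ∀ C ψ, IsIso H C ψ → ψ 1 = u := by
  obtain ⟨H, hH, ⟨K, hK, hK1, hK2⟩, φ, h0, hd, h1⟩ := hu
  have hbe := (contDiff_infty_iff_deriv.1 be_smooth)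
  refine ⟨fun t x => deriv be t * H (be t) x, K, hK, hK1, ⟨?_, ?_, ?_⟩, ?_⟩
  · have e2 : ContDiff ℝ ((⊤ : ℕ∞) : WithTop ℕ∞) (fun p : ℝ × E n => H (be p.1) p.2) :=
      hH.comp ((be_smooth.comp contDiff_fst).prodMk contDiff_snd)
    exact (hbe.2.comp contDiff_fst).mul e2
  · intro t x hx
    show deriv be t * H (be t) x = 0
    rw [hK2 _ x hx, mul_zero]
  · intro t x ht
    show deriv be t * H (be t) x = 0
    rw [be_deriv_zero ht, zero_mul]
  · intro C ψ hψ
    refine Homeomorph.ext fun x => ?_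
    have h2 : ∀ t, HasDerivAt (fun s => φ (be s) x)
        (XH (fun y => deriv be t * H (be t) y) (φ (be t) x)) t := by
      intro t
      rw [XH_const_mul _ (diff_slice hH _ _)]
      exact (hd (be t) x).scomp t (hbe.1 t).hasDerivAt
    have h3 := hψ.unique (fun s => φ (be s) x) 0 h2 1
    have b0 : be 0 = 0 := Real.smoothTransition.zero_of_nonpos le_rfl
    have b1 : be 1 = 1 := Real.smoothTransition.one_of_one_le le_rfl
    simp only [b0, b1, h0, hψ.zero, inv_one] at h3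
    rw [h1, h3]
    rfl

/-- the maps from the time `s` to the time `t` are Hamiltonian -/
theorem IsIso.isHam {H : ℝ → E n → ℝ} {K : Set (E n)} (hK : IsCompact K)
    (hK1 : K ⊆ {p : E n | Q p < 1}) (hH : Good H K) {C : ℝ≥0}
    {ψ : ℝ → (E n ≃ₜ E n)} (h : IsIso H C ψ) (s t : ℝ) : IsHam (ψ t * (ψ s)⁻¹) := by
  refine ⟨fun r x => (t - s) * H (s + r * (t - s)) x, ?_, ⟨K, hK, hK1, ?_⟩,
    fun r x => ψ (s + r * (t - s)) ((ψ s)⁻¹ x), ?_, ?_, ?_⟩
  · have e1 : ContDiff ℝ ((⊤ : ℕ∞) : WithTop ℕ∞) (fun p : ℝ × E n => s + p.1 * (t - s)) :=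
      contDiff_const.add (contDiff_fst.mul contDiff_const)
    have e2 : ContDiff ℝ ((⊤ : ℕ∞) : WithTop ℕ∞) (fun p : ℝ × E n => H (s + p.1 * (t - s)) p.2) :=
      hH.smooth.comp (e1.prodMk contDiff_snd)
    exact contDiff_const.mul e2
  · intro r x hx
    show (t - s) * H (s + r * (t - s)) x = 0
    rw [hH.space _ x hx, mul_zero]
  · intro x
    show ψ (s + 0 * (t - s)) ((ψ s)⁻¹ x) = x
    rw [zero_mul, add_zero, apply_inv_self]
  · intro r x
    rw [XH_const_mul _ (diff_slice hH.smooth _ _)]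
    have e1 : HasDerivAt (fun r : ℝ => s + r * (t - s)) (t - s) r := by
      have := ((hasDerivAt_id r).mul_const (t - s)).const_add s
      simpa using this
    exact (h.deriv (s + r * (t - s)) ((ψ s)⁻¹ x)).scomp r e1
  · intro x
    show ψ t ((ψ s)⁻¹ x) = ψ (s + 1 * (t - s)) ((ψ s)⁻¹ x)
    rw [one_mul, add_sub_cancel]

end Pool.Agent.X277.Ham
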