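import Pool.Agent.X277.Ham.TK

/-!
# Homomorphisms of the group of Hamiltonian homeomorphisms to slender groups
-/

set_option autoImplicit false

open Set Filter Topology Function
open scoped NNReal

namespace Pool.Agent.X277.Ham

open Pool.Agent.Y453.HB

variable {n : ℕ}

/-- every homomorphism from a completely metrizable group to `Γ` has an open kernel -/
def IsSlender (Γ : Type) [Group Γ] : Prop :=
  ∀ (T : Type) [Group T] [MetricSpace T] [CompleteSpace T] [IsTopologicalGroup T] (c : T →* Γ),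
    IsOpen (c.ker : Set T)

theorem slender_int : IsSlender (Multiplicative ℤ) := fun _ _ _ _ _ c => dudley c

/-- the inclusion -/
noncomputable def incl {K : Set (E n)} (hK : IsCompact K) (hK1 : K ⊆ {p : E n | Q p < 1}) :
    TK K hK →* HamBar n :=
  Subgroup.inclusion fun _ h => lim_mem_hamBar hK hK1 h

theorem ham_mem' {u : E n ≃ₜ E n} (hu : IsHam u) : u ∈ HamBar n :=
  Subgroup.subset_closure (ham_mem hu)

theorem mem_iff' {φ : E n ≃ₜ E n} : φ ∈ HamBar n ↔ φ ∈ hamBar n :=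
  mem_iff Pool.Agent.Y907.HB.mul Pool.Agent.Y510.HB.inv Pool.Agent.Y309.HB.uc

/-- the isotopy as a continuous path -/
theorem path_cont {H : ℝ → E n → ℝ} {K : Set (E n)} (hK : IsCompact K)
    (hK1 : K ⊆ {p : E n | Q p < 1}) (hH : Good H K) {C : ℝ≥0}
    {ψ : ℝ → (E n ≃ₜ E n)} (h : IsIso H C ψ) :
    ∃ g : ℝ → TK K hK, Continuous g ∧ ∀ t, (g t : E n ≃ₜ E n) = ψ t := by
  have h1 : ∀ t, ψ t ∈ lim K := by
    intro t
    refine ⟨fun x hx => h.fix hK hH t x hx, fun _ => ψ t, fun _ x hx => h.fix hK hH t x hx,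
      fun _ => ?_, unif_const _⟩
    have h2 := h.isHam hK hK1 hH 0 t
    rwa [h.zero, inv_one, mul_one] at h2
  refine ⟨fun t => ⟨ψ t, h1 t⟩, ?_, fun t => rfl⟩
  apply SeqContinuous.continuous
  intro s t hs
  apply tendsto_of
  show TendstoUniformly (fun k x => ψ (s k) x) (fun x => ψ t x) atTop
  rw [Metric.tendstoUniformly_iff]
  intro ε hε
  have h2 : Tendsto (fun k => (C : ℝ) * dist t (s k)) atTop (𝓝 0) := by
    have h3 : Tendsto (fun k => dist t (s k)) atTop (𝓝 0) := by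
      have := (tendsto_const_nhds (x := t)).dist hs
      rwa [dist_self] at this
    have := h3.const_mul (C : ℝ)
    rwa [mul_zero] at this
  filter_upwards [h2.eventually (gt_mem_nhds hε)] with k hk x
  exact (h.lip t (s k) x).trans_lt hk

theorem open_contains {K : Set (E n)} (hK : IsCompact K) {g : ℝ → TK K hK} (hg : Continuous g)
    (h0 : g 0 = 1) {N : Subgroup (TK K hK)} (hN : IsOpen (N : Set (TK K hK))) (t : ℝ) :
    g t ∈ N := by
  have hc : IsClopen (N : Set (TK K hK)) := ⟨N.isClosed_of_isOpen hN, hN⟩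
  have h1 : g ⁻¹' (N : Set (TK K hK)) = univ :=
    (hc.preimage hg).eq_univ ⟨0, by
      show g 0 ∈ N
      rw [h0]
      exact N.one_mem⟩
  have : t ∈ g ⁻¹' (N : Set (TK K hK)) := by rw [h1]; exact mem_univ _
  exact this

theorem nohom {Γ : Type} [Group Γ] (hΓ : IsSlender Γ) (c : HamBar n →* Γ) (φ : HamBar n) :
    c φ = 1 := by
  -- Hamiltonian diffeomorphisms
  have step : ∀ (u : E n ≃ₜ E n) (hu : IsHam u), c ⟨u, ham_mem' hu⟩ = 1 := by
    intro u hu
    obtain ⟨H, K, hK, hK1, hH, h1⟩ := exists_good hu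
    obtain ⟨C, ψ, hψ⟩ := exists_iso hK hH
    obtain ⟨g, hg1, hg2⟩ := path_cont hK hK1 hH hψ
    have h2 := open_contains hK hg1 (Subtype.ext (by rw [hg2, hψ.zero]; rfl))
      (hΓ _ (c.comp (incl hK hK1))) 1
    have h3 : c (incl hK hK1 (g 1)) = 1 := h2
    have h4 : incl hK hK1 (g 1) = ⟨u, ham_mem' hu⟩ := by
      apply Subtype.ext
      show (g 1 : E n ≃ₜ E n) = u
      rw [hg2, h1 C ψ hψ]
    rwa [h4] at h3
  obtain ⟨K, hK, hK1, h1, u, hu1, hu2, hu3⟩ := mem_iff'.1 φ.2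
  set N := (c.comp (incl hK hK1)).ker with hN
  have hclosed : IsClosed (N : Set (TK K hK)) :=
    N.isClosed_of_isOpen (hΓ _ (c.comp (incl hK hK1)))
  set v : ℕ → TK K hK := fun k => ⟨u k, hu1 k, fun _ => u k, fun _ => hu1 k, fun _ => hu2 k,
    unif_const _⟩ with hv
  set f : TK K hK := ⟨φ, h1, u, hu1, hu2, hu3⟩ with hf
  have h2 : Tendsto v atTop (𝓝 f) := tendsto_of hu3
  have h3 : ∀ k, v k ∈ (N : Set (TK K hK)) := by
    intro k
    show c (incl hK hK1 (v k)) = 1
    exact step (u k) (hu2 k)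
  have h4 : f ∈ (N : Set (TK K hK)) := hclosed.mem_of_tendsto h2 (Eventually.of_forall h3)
  exact h4

/-- every nontrivial subgroup has a nontrivial homomorphism to a slender group -/
def IsLocSlender (Γ : Type) [Group Γ] : Prop :=
  ∀ S : Subgroup Γ, S ≠ ⊥ → ∃ (Δ : Type) (_ : Group Δ) (d : S →* Δ), IsSlender Δ ∧ ∃ s, d s ≠ 1

theorem nohom' {Γ : Type} [Group Γ] (hΓ : IsLocSlender Γ) (c : HamBar n →* Γ) (φ : HamBar n) :
    c φ = 1 := by
  by_contra hne
  have h1 : c.range ≠ ⊥ := by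
    intro h
    have : c φ ∈ c.range := ⟨φ, rfl⟩
    rw [h, Subgroup.mem_bot] at this
    exact hne this
  obtain ⟨Δ, _, d, hΔ, s, hs⟩ := hΓ c.range h1
  obtain ⟨ψ, rfl⟩ := c.rangeRestrict_surjective s
  exact hs (nohom hΔ (d.comp c.rangeRestrict) ψ)

theorem locSlender_free (α : Type) : IsLocSlender (FreeGroup α) := by
  intro S hS
  refine ⟨Multiplicative ℤ, inferInstance, ?_⟩
  have hfree : IsFreeGroup S := subgroupIsFreeOfIsFree S
  set B := IsFreeGroup.basis S with hB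
  by_cases hne : Nonempty (IsFreeGroup.Generators S)
  · obtain ⟨b⟩ := hne
    refine ⟨B.lift (fun _ => Multiplicative.ofAdd 1), slender_int, B b, ?_⟩
    rw [FreeGroupBasis.lift_apply_apply]
    intro h
    have := congrArg Multiplicative.toAdd h
    simp at this
  · exfalso
    apply hS
    rw [not_nonempty_iff] at hne
    have h1 : Subsingleton (FreeGroup (IsFreeGroup.Generators S)) := by infer_instance
    have h2 : Subsingleton S := B.repr.toEquiv.subsingleton
    rw [Subgroup.eq_bot_iff_forall]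
    intro x hx
    have := congrArg Subtype.val (Subsingleton.elim (⟨x, hx⟩ : S) 1)
    exact this

/-- residually (locally slender) groups -/
theorem locSlender_residual {Γ : Type} [Group Γ] (h : ∀ g : Γ, g ≠ 1 →
    ∃ (Δ : Type) (_ : Group Δ) (d : Γ →* Δ), IsLocSlender Δ ∧ d g ≠ 1) : IsLocSlender Γ := by
  intro S hS
  obtain ⟨⟨g, hg⟩, hg0⟩ := Subgroup.ne_bot_iff_exists_ne_one.1 hS
  have hg1 : g ≠ 1 := fun h => hg0 (Subtype.ext h)
  obtain ⟨Δ, _, d, hΔ, hd⟩ := h g hg1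
  have h1 : (S.map d) ≠ ⊥ := by
    intro h2
    have : d g ∈ S.map d := ⟨g, hg, rfl⟩
    rw [h2, Subgroup.mem_bot] at this
    exact hd this
  obtain ⟨Δ', _, e, hΔ', s, hs⟩ := hΔ _ h1
  obtain ⟨⟨x, hx⟩, rfl⟩ := (d.subgroupMap_surjective S) s
  exact ⟨Δ', inferInstance, e.comp (d.subgroupMap S), hΔ', ⟨x, hx⟩, hs⟩

/-- extensions -/
theorem locSlender_ext {Γ Δ : Type} [Group Γ] [Group Δ] (d : Γ →* Δ) (hΔ : IsLocSlender Δ)
    (hk : IsLocSlender d.ker) : IsLocSlender Γ := by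
  intro S hS
  by_cases h1 : (S.map d) = ⊥
  · have hSk : S ≤ d.ker := by
      intro x hx
      have : d x ∈ S.map d := ⟨x, hx, rfl⟩
      rw [h1, Subgroup.mem_bot] at this
      exact this
    have h2 : S.subgroupOf d.ker ≠ ⊥ := by
      intro h
      rw [Subgroup.subgroupOf_eq_bot, disjoint_iff, inf_eq_left.2 hSk] at h
      exact hS h
    obtain ⟨Δ', _, e, hΔ', s, hs⟩ := hk _ h2
    refine ⟨Δ', inferInstance, e.comp (Subgroup.subgroupOfEquivOfLe hSk).symm.toMonoidHom, hΔ',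
      Subgroup.subgroupOfEquivOfLe hSk s, ?_⟩
    simpa using hs
  · obtain ⟨Δ', _, e, hΔ', s, hs⟩ := hΔ _ h1
    obtain ⟨⟨x, hx⟩, rfl⟩ := (d.subgroupMap_surjective S) s
    exact ⟨Δ', inferInstance, e.comp (d.subgroupMap S), hΔ', ⟨x, hx⟩, hs⟩

theorem locSlender_of {Γ : Type} [Group Γ] (h : IsSlender Γ) : IsLocSlender Γ := by
  intro S hS
  obtain ⟨g, hg⟩ := Subgroup.ne_bot_iff_exists_ne_one.1 hS
  exact ⟨Γ, inferInstance, S.subtype, h, g, fun h1 => hg (Subtype.ext h1)⟩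

end Pool.Agent.X277.Ham
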