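import Pool.Agent.X277.Ham.Rot

/-!
# Normal subgroups of the group of Hamiltonian homeomorphisms: commutators of diffeomorphisms
-/

set_option autoImplicit false

open Set Filter Topology Function
open scoped NNReal commutatorElement

namespace Pool.Agent.X277.Ham

open Pool.Agent.Y453.HB

variable {n : ℕ}

/-- `φ` is the identity off `W` -/
def Sup (W : Set (E n)) (φ : E n ≃ₜ E n) : Prop := ∀ x, x ∉ W → φ x = x

theorem Sup.inv {W : Set (E n)} {g : E n ≃ₜ E n} (h : Sup W g) : Sup W g⁻¹ := by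
  intro x hx
  have := inv_apply_self g x
  rwa [h x hx] at this

theorem Sup.mul {W : Set (E n)} {g h : E n ≃ₜ E n} (hg : Sup W g) (hh : Sup W h) :
    Sup W (g * h) := fun x hx => by rw [mul_apply, hh x hx, hg x hx]

theorem Sup.mono {W V : Set (E n)} (hWV : W ⊆ V) {g : E n ≃ₜ E n} (h : Sup W g) : Sup V g :=
  fun x hx => h x fun hc => hx (hWV hc)

theorem Sup.one {W : Set (E n)} : Sup W (1 : E n ≃ₜ E n) := fun _ _ => rfl

theorem Sup.conj {W : Set (E n)} {g : E n ≃ₜ E n} (h : Sup W g) (k : E n ≃ₜ E n) :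
    Sup (k '' W) (k * g * k⁻¹) := by
  intro x hx
  have h1 : k⁻¹ x ∉ W := fun hc => hx ⟨k⁻¹ x, hc, apply_inv_self k x⟩
  rw [mul_apply, mul_apply, h _ h1, apply_inv_self]

theorem Sup.maps {W : Set (E n)} {g : E n ≃ₜ E n} (h : Sup W g) {x : E n} (hx : x ∈ W) :
    g x ∈ W := by
  by_contra hc
  have h1 := h _ hc
  have h2 : g x = x := g.injective h1
  rw [h2] at hc
  exact hc hx

theorem Sup.comm {A B : Set (E n)} {a b : E n ≃ₜ E n} (ha : Sup A a) (hb : Sup B b)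
    (h : Disjoint A B) : Commute a b := by
  refine Homeomorph.ext fun x => ?_
  rw [mul_apply, mul_apply]
  by_cases hA : x ∈ A
  · have h1 : a x ∈ A := ha.maps hA
    rw [hb x (disjoint_left.1 h hA), hb _ (disjoint_left.1 h h1)]
  · rw [ha x hA]
    by_cases hB : x ∈ B
    · exact ha _ (disjoint_right.1 h (hb.maps hB))
    · rw [hb x hB, ha x hA]

theorem comm_one {a b : E n ≃ₜ E n} (h : Commute a b) : ⁅a, b⁆ = 1 :=
  commutatorElement_eq_one_iff_commute.2 h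

theorem comm_lemma {G : Type*} [Group G] {g h c d : G} (h1 : Commute c (h * d))
    (h2 : Commute g d) : ⁅g * c, h * d⁆ = ⁅g, h⁆ := by
  rw [commutatorElement_def, commutatorElement_def, mul_inv_rev, mul_inv_rev]
  have e1 : g * c * (h * d) * (c⁻¹ * g⁻¹) * (d⁻¹ * h⁻¹) =
      g * (c * (h * d)) * c⁻¹ * g⁻¹ * d⁻¹ * h⁻¹ := by group
  rw [e1, h1.eq]
  have e2 : g * (h * d * c) * c⁻¹ * g⁻¹ * d⁻¹ * h⁻¹ = g * h * (d * g⁻¹) * d⁻¹ * h⁻¹ := by group
  rw [e2, (h2.inv_left.eq).symm]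
  group

/-- `N` is normalized by `P` -/
def NormBy (P N : Subgroup (E n ≃ₜ E n)) : Prop := ∀ g ∈ P, ∀ f ∈ N, g * f * g⁻¹ ∈ N

/-- the displacement trick -/
theorem disp_trick {P N : Subgroup (E n ≃ₜ E n)} (hN : NormBy P N) {f : E n ≃ₜ E n} (hf : f ∈ N)
    {W : Set (E n)} (hW : Disjoint (f '' W) W) {g h : E n ≃ₜ E n} (hg : g ∈ P) (hh : h ∈ P)
    (hgW : Sup W g) (hhW : Sup W h) : ⁅g, h⁆ ∈ N := by
  have h1 : ⁅g, f⁆ ∈ N := by
    rw [commutatorElement_def]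
    exact N.mul_mem (hN g hg f hf) (N.inv_mem hf)
  have h2 : ⁅⁅g, f⁆, h⁆ ∈ N := by
    have e : ⁅⁅g, f⁆, h⁆ = ⁅g, f⁆ * (h * ⁅g, f⁆⁻¹ * h⁻¹) := by
      rw [commutatorElement_def ⁅g, f⁆ h]
      group
    rw [e]
    exact N.mul_mem h1 (hN h hh _ (N.inv_mem h1))
  have h3 : ⁅g, f⁆ = g * (f * g⁻¹ * f⁻¹) := by
    rw [commutatorElement_def]
    group
  have h4 : Commute (f * g⁻¹ * f⁻¹) h := (hgW.inv.conj f).comm hhW hW
  have h5 := comm_lemma (g := g) (h := h) (c := f * g⁻¹ * f⁻¹) (d := 1) (by rwa [mul_one])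
    (Commute.one_right g)
  rw [mul_one] at h5
  rwa [h3, h5] at h2

theorem comm_mul_left {P N : Subgroup (E n ≃ₜ E n)} (hN : NormBy P N) {a a' b : E n ≃ₜ E n}
    (ha : a ∈ P) (h : ⁅a, b⁆ ∈ N) (h' : ⁅a', b⁆ ∈ N) : ⁅a * a', b⁆ ∈ N := by
  have e : ⁅a * a', b⁆ = (a * ⁅a', b⁆ * a⁻¹) * ⁅a, b⁆ := by
    simp only [commutatorElement_def]
    group
  rw [e]
  exact N.mul_mem (hN a ha _ h') h

theorem comm_inv_left {P N : Subgroup (E n ≃ₜ E n)} (hN : NormBy P N) {a b : E n ≃ₜ E n}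
    (ha : a ∈ P) (h : ⁅a, b⁆ ∈ N) : ⁅a⁻¹, b⁆ ∈ N := by
  have e : ⁅a⁻¹, b⁆ = a⁻¹ * ⁅a, b⁆⁻¹ * (a⁻¹)⁻¹ := by
    simp only [commutatorElement_def]
    group
  rw [e]
  exact hN _ (P.inv_mem ha) _ (N.inv_mem h)

theorem comm_symm {N : Subgroup (E n ≃ₜ E n)} {a b : E n ≃ₜ E n} (h : ⁅a, b⁆ ∈ N) :
    ⁅b, a⁆ ∈ N := by
  rw [← commutatorElement_inv]
  exact N.inv_mem h

theorem closure_comm_left {P N : Subgroup (E n ≃ₜ E n)} (hN : NormBy P N)
    {S : Set (E n ≃ₜ E n)} (hS : S ⊆ P) {b : E n ≃ₜ E n} (h : ∀ a ∈ S, ⁅a, b⁆ ∈ N) :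
    ∀ a ∈ Subgroup.closure S, ⁅a, b⁆ ∈ N := by
  intro a ha
  have hle : Subgroup.closure S ≤ P := (Subgroup.closure_le P).2 hS
  refine Subgroup.closure_induction (p := fun a _ => ⁅a, b⁆ ∈ N) h ?_ ?_ ?_ ha
  · rw [comm_one (Commute.one_left b)]
    exact N.one_mem
  · intro x y hx _ h1 h2
    exact comm_mul_left hN (hle hx) h1 h2
  · intro x hx h1
    exact comm_inv_left hN (hle hx) h1

theorem closure_comm {P N : Subgroup (E n ≃ₜ E n)} (hN : NormBy P N)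
    {S S' : Set (E n ≃ₜ E n)} (hS : S ⊆ P) (hS' : S' ⊆ P)
    (h : ∀ a ∈ S, ∀ b ∈ S', ⁅a, b⁆ ∈ N) :
    ∀ a ∈ Subgroup.closure S, ∀ b ∈ Subgroup.closure S', ⁅a, b⁆ ∈ N := by
  intro a ha b hb
  apply comm_symm
  refine closure_comm_left hN hS' (fun b hb => comm_symm ?_) b hb
  exact closure_comm_left hN hS (fun a ha => h a ha b hb) a ha

/-- the group of Hamiltonian diffeomorphisms -/
def HamS (n : ℕ) : Subgroup (E n ≃ₜ E n) where
  carrier := {u | IsHam u}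
  one_mem' := ham_one
  mul_mem' := fun h h' => ham_mul h h'
  inv_mem' := fun h => ham_inv h

theorem mem_HamS {u : E n ≃ₜ E n} : u ∈ HamS n ↔ IsHam u := Iff.rfl

theorem HamS_le : HamS n ≤ HamBar n := fun _ h => ham_mem' h

theorem trans0 {p : E n} (hp : Q p < 1) : ∃ k : E n ≃ₜ E n, IsHam k ∧ k p = 0 ∧ k 0 = p := by
  have h0 : 0 ≤ √(Q p) := Real.sqrt_nonneg _
  have h1 : √(Q p) < 1 := by
    rw [Real.sqrt_lt' one_pos]
    simpa using hp
  obtain ⟨R, hR, hR2⟩ := rot' p (r := (1 - √(Q p)) / 2) (d := √(Q p)) (by linarith) h0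
    (Real.sq_sqrt (Q_nonneg p)).symm (by linarith)
  refine ⟨R, hR, ?_, ?_⟩
  · rw [hR2, sub_self]
    have : p - (1 / 2 : ℝ) • p = (1 / 2 : ℝ) • p := by
      rw [sub_eq_iff_eq_add, ← add_smul]
      norm_num
    rw [this, Q_smul, Real.sqrt_mul (by norm_num), Real.sqrt_sq (by norm_num)]
    linarith
  · rw [hR2, sub_zero]
    have : (0 : E n) - (1 / 2 : ℝ) • p = (-(1 / 2) : ℝ) • p := by
      rw [zero_sub, neg_smul]
    rw [this, Q_smul, neg_sq, Real.sqrt_mul (by norm_num), Real.sqrt_sq (by norm_num)]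
    linarith

theorem trans {p q : E n} (hp : Q p < 1) (hq : Q q < 1) :
    ∃ k : E n ≃ₜ E n, IsHam k ∧ k q = p := by
  obtain ⟨k, h1, -, h2⟩ := trans0 hp
  obtain ⟨l, h3, h4, -⟩ := trans0 hq
  exact ⟨k * l, ham_mul h1 h3, by rw [mul_apply, h4, h2]⟩

theorem isOpen_ball : IsOpen {p : E n | Q p < 1} := isOpen_lt Q_cont continuous_const

/-- homeomorphisms in the group move only points of the ball -/
theorem moved {f : E n ≃ₜ E n} (hf : f ∈ HamBar n) {p : E n} (hp : f p ≠ p) : Q p < 1 := by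
  obtain ⟨K, -, hK1, h, -⟩ := mem_iff'.1 hf
  by_contra hc
  exact hp (h p fun hpK => hc (hK1 hpK))

theorem displace {f : E n ≃ₜ E n} {p : E n} (hp : f p ≠ p) :
    ∃ r > 0, Disjoint (f '' Metric.ball p r) (Metric.ball p r) := by
  obtain ⟨U, V, hU, hV, hpU, hpV, hUV⟩ := t2_separation hp
  have h1 : (f ⁻¹' U) ∩ V ∈ 𝓝 p := Filter.inter_mem (f.continuous.continuousAt.preimage_mem_nhds
    (hU.mem_nhds hpU)) (hV.mem_nhds hpV)
  obtain ⟨r, hr, h2⟩ := Metric.mem_nhds_iff.1 h1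
  refine ⟨r, hr, ?_⟩
  rw [disjoint_left]
  rintro _ ⟨x, hx, rfl⟩ hy
  exact disjoint_left.1 hUV (h2 hx).1 (h2 hy).2

/-- compact sets and small balls -/
theorem lebesgue {K : Set (E n)} (hK : IsCompact K) {P : Set (E n) → Prop}
    (hmono : ∀ A B : Set (E n), A ⊆ B → P B → P A)
    (h : ∀ q ∈ K, ∃ U : Set (E n), IsOpen U ∧ q ∈ U ∧ P U) :
    ∃ δ > 0, ∀ x ∈ K, P (Metric.ball x δ) := by
  choose! U hU hq hP using h
  obtain ⟨δ, hδ, h1⟩ := lebesgue_number_lemma_of_metric (c := fun q : K => U q) hK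
    (fun q => hU q q.2) (fun q hqK => mem_iUnion.2 ⟨⟨q, hqK⟩, hq q hqK⟩)
  refine ⟨δ, hδ, fun x hx => ?_⟩
  obtain ⟨q, hq2⟩ := h1 x hx
  exact hmono _ _ hq2 (hP q q.2)

/-- small elements whose commutators with small elements are in `N` -/
theorem small_comm {K : Set (E n)} {δ : ℝ} {N : Subgroup (E n ≃ₜ E n)}
    (h : ∀ x ∈ K, ∀ a b, IsHam a → IsHam b → Sup (Metric.ball x δ) a → Sup (Metric.ball x δ) b →
      ⁅a, b⁆ ∈ N) {a b : E n ≃ₜ E n} (ha : a ∈ Small K (δ / 2)) (hb : b ∈ Small K (δ / 2)) :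
    ⁅a, b⁆ ∈ N := by
  obtain ⟨ha1, ha2, p, ha3⟩ := ha
  obtain ⟨hb1, hb2, q, hb3⟩ := hb
  have sa : Sup (K ∩ Metric.ball p (δ / 2)) a := by
    intro x hx
    rw [mem_inter_iff, not_and_or] at hx
    rcases hx with hx | hx
    · exact ha2 x hx
    · exact ha3 x (not_lt.1 hx)
  have sb : Sup (K ∩ Metric.ball q (δ / 2)) b := by
    intro x hx
    rw [mem_inter_iff, not_and_or] at hx
    rcases hx with hx | hx
    · exact hb2 x hx
    · exact hb3 x (not_lt.1 hx)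
  by_cases hd : Disjoint (K ∩ Metric.ball p (δ / 2)) (K ∩ Metric.ball q (δ / 2))
  · rw [comm_one (sa.comm sb hd)]
    exact N.one_mem
  · obtain ⟨x, ⟨hxK, hxp⟩, -, hxq⟩ := not_disjoint_iff.1 hd
    refine h x hxK a b ha1 hb1 (sa.mono fun y hy => ?_) (sb.mono fun y hy => ?_)
    · have := dist_triangle_right y x p
      have h1 := hy.2
      rw [Metric.mem_ball] at *
      linarith
    · have := dist_triangle_right y x q
      have h1 := hy.2
      rw [Metric.mem_ball] at *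
      linarith

theorem small_sub (K : Set (E n)) (η : ℝ) : Small K η ⊆ HamS n := fun _ h => h.1

/-- nontrivial subgroups normalized by all Hamiltonian homeomorphisms contain the commutators of
Hamiltonian diffeomorphisms -/
theorem ham_comm {N : Subgroup (E n ≃ₜ E n)} (hN : NormBy (HamBar n) N) (hle : N ≤ HamBar n)
    (hne : N ≠ ⊥) {u v : E n ≃ₜ E n} (hu : IsHam u) (hv : IsHam v) : ⁅u, v⁆ ∈ N := by
  obtain ⟨⟨f, hf⟩, hf1⟩ := Subgroup.ne_bot_iff_exists_ne_one.1 hne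
  have hf2 : ∃ p, f p ≠ p := by
    by_contra hc
    push Not at hc
    exact hf1 (Subtype.ext (Homeomorph.ext hc))
  obtain ⟨p, hp⟩ := hf2
  have hpQ := moved (hle hf) hp
  obtain ⟨r, hr, hdisj⟩ := displace hp
  obtain ⟨K, hK, hK1, hu2⟩ := frag hu
  obtain ⟨L, hL, hL1, hv2⟩ := frag hv
  obtain ⟨δ, hδ, h1⟩ := lebesgue (hK.union hL)
    (P := fun W => ∀ a b : E n ≃ₜ E n, IsHam a → IsHam b → Sup W a → Sup W b → ⁅a, b⁆ ∈ N)
    (fun A B hAB h a b ha hb h1 h2 => h a b ha hb (h1.mono hAB) (h2.mono hAB)) (by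
      intro q hq
      have hqQ : Q q < 1 := union_subset hK1 hL1 hq
      obtain ⟨k, hk, hkq⟩ := trans hpQ hqQ
      refine ⟨k ⁻¹' (Metric.ball p r), Metric.isOpen_ball.preimage k.continuous, by
        show k q ∈ Metric.ball p r
        rw [hkq]
        exact Metric.mem_ball_self hr, fun a b ha hb ha2 hb2 => ?_⟩
      have himg : k '' (k ⁻¹' (Metric.ball p r)) ⊆ Metric.ball p r := image_preimage_subset _ _
      have hkG := ham_mem' hk
      have h3 := disp_trick hN hf hdisj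
        ((HamBar n).mul_mem ((HamBar n).mul_mem hkG (ham_mem' ha)) ((HamBar n).inv_mem hkG))
        ((HamBar n).mul_mem ((HamBar n).mul_mem hkG (ham_mem' hb)) ((HamBar n).inv_mem hkG))
        ((ha2.conj k).mono himg) ((hb2.conj k).mono himg)
      have h4 := hN k⁻¹ ((HamBar n).inv_mem hkG) _ h3
      have e : k⁻¹ * ⁅k * a * k⁻¹, k * b * k⁻¹⁆ * (k⁻¹)⁻¹ = ⁅a, b⁆ := by
        simp only [commutatorElement_def]
        group
      rwa [e] at h4)
  refine closure_comm hN ((small_sub (K ∪ L) (δ / 2)).trans HamS_le)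
    ((small_sub (K ∪ L) (δ / 2)).trans HamS_le) (fun a ha b hb => small_comm h1 ha hb) u ?_ v ?_
  · exact Subgroup.closure_mono (small_mono subset_union_left le_rfl) (hu2 (δ / 2) (by positivity))
  · exact Subgroup.closure_mono (small_mono subset_union_right le_rfl) (hv2 (δ / 2) (by positivity))

end Pool.Agent.X277.Ham
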