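import Pool.Agent.X277.Ham.Norm

/-!
# Normal subgroups of the group of Hamiltonian homeomorphisms: density and displaceable sets
-/

set_option autoImplicit false

open Set Filter Topology Function
open scoped NNReal commutatorElement

namespace Pool.Agent.X277.Ham

open Pool.Agent.Y453.HB

variable {n : ℕ}

/-- Hamiltonian diffeomorphisms are products of elements of `N` and of Hamiltonian diffeomorphisms
supported in any given open set -/
theorem factor {N : Subgroup (E n ≃ₜ E n)} (hN : NormBy (HamS n) N)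
    (hc : ∀ u v : E n ≃ₜ E n, IsHam u → IsHam v → ⁅u, v⁆ ∈ N) {W : Set (E n)} (hW : IsOpen W)
    {z : E n} (hz : z ∈ W) (hzQ : Q z < 1) {u : E n ≃ₜ E n} (hu : IsHam u) :
    ∃ f ∈ N, ∃ w : E n ≃ₜ E n, IsHam w ∧ Sup W w ∧ u = f * w := by
  obtain ⟨K, hK, hK1, hu2⟩ := frag hu
  obtain ⟨δ, hδ, h1⟩ := lebesgue hK (P := fun A => ∃ k : E n ≃ₜ E n, IsHam k ∧ k '' A ⊆ W)
    (fun A B hAB ⟨k, hk, h⟩ => ⟨k, hk, (image_mono hAB).trans h⟩) (by
      intro q hq
      obtain ⟨k, hk, hkq⟩ := trans hzQ (hK1 hq)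
      exact ⟨k ⁻¹' W, hW.preimage k.continuous, by
        show k q ∈ W
        rwa [hkq], k, hk, image_preimage_subset _ _⟩)
  have hsmall : ∀ g ∈ Small K (δ / 2), ∃ f ∈ N, ∃ w : E n ≃ₜ E n, IsHam w ∧ Sup W w ∧
      g = f * w := by
    rintro g ⟨hg1, hg2, p, hg3⟩
    by_cases hg : g = 1
    · exact ⟨1, N.one_mem, 1, ham_one, Sup.one, by rw [hg, one_mul]⟩
    · have : ∃ x, g x ≠ x := by
        by_contra hc
        push Not at hc
        exact hg (Homeomorph.ext hc)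
      obtain ⟨x, hx⟩ := this
      have hxK : x ∈ K := by
        by_contra h
        exact hx (hg2 x h)
      have hxp : dist x p < δ / 2 := by
        by_contra h
        exact hx (hg3 x (not_lt.1 h))
      obtain ⟨k, hk, hkW⟩ := h1 x hxK
      have hS : Sup (Metric.ball x δ) g := by
        intro y hy
        apply hg3 y
        rw [Metric.mem_ball, not_lt] at hy
        have := dist_triangle_right y x p
        linarith
      refine ⟨⁅g, k⁆, hc g k hg1 hk, k * g * k⁻¹, ham_mul (ham_mul hk hg1) (ham_inv hk),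
        (hS.conj k).mono hkW, ?_⟩
      rw [commutatorElement_def]
      group
  have hu3 := hu2 (δ / 2) (by positivity)
  refine Subgroup.closure_induction (p := fun g _ => ∃ f ∈ N, ∃ w : E n ≃ₜ E n, IsHam w ∧
    Sup W w ∧ g = f * w) hsmall ?_ ?_ ?_ hu3
  · exact ⟨1, N.one_mem, 1, ham_one, Sup.one, by rw [one_mul]⟩
  · rintro x y - - ⟨f, hf, w, hw, hw2, rfl⟩ ⟨f', hf', w', hw', hw2', rfl⟩
    refine ⟨f * (w * f' * w⁻¹), N.mul_mem hf (hN w hw f' hf'), w * w', ham_mul hw hw',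
      hw2.mul hw2', ?_⟩
    group
  · rintro x - ⟨f, hf, w, hw, hw2, rfl⟩
    refine ⟨w⁻¹ * f⁻¹ * (w⁻¹)⁻¹, hN w⁻¹ (ham_inv hw) _ (N.inv_mem hf), w⁻¹, ham_inv hw, hw2.inv, ?_⟩
    group

/-- uniform approximation of Hamiltonian diffeomorphisms by elements of `N` -/
theorem approx {N : Subgroup (E n ≃ₜ E n)} (hN : NormBy (HamS n) N)
    (hc : ∀ u v : E n ≃ₜ E n, IsHam u → IsHam v → ⁅u, v⁆ ∈ N) {u : E n ≃ₜ E n} (hu : IsHam u)
    {ε : ℝ} (hε : 0 < ε) :
    ∃ f ∈ N, IsHam f ∧ (∀ x, dist (u x) (f x) < ε) ∧ ∀ x, 1 / 4 ≤ Q x → f x = u x := by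
  obtain ⟨K, hK, hK1, hfix⟩ := ham_support hu
  have huc : UniformContinuous u := (Pool.Agent.Y309.HB.uc (n := n)).2.2.2.2 u K hK hfix |>.1
  obtain ⟨δ, hδ, h1⟩ := Metric.uniformContinuous_iff.1 huc ε hε
  set W : Set (E n) := {x | Q x < 1 / 4} ∩ Metric.ball 0 (δ / 2) with hW
  have hWo : IsOpen W := (isOpen_lt Q_cont continuous_const).inter Metric.isOpen_ball
  have hQ0 : Q (0 : E n) = 0 := by
    have := Q_smul (n := n) 0 0
    simpa using this
  have h0 : (0 : E n) ∈ W := by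
    refine ⟨?_, Metric.mem_ball_self (by positivity)⟩
    show Q (0 : E n) < 1 / 4
    rw [hQ0]
    norm_num
  obtain ⟨f, hf, w, hw, hw2, huf⟩ := factor hN hc hWo h0 (by rw [hQ0]; norm_num) hu
  have hf2 : f = u * w⁻¹ := by rw [huf, mul_inv_cancel_right]
  refine ⟨f, hf, by rw [hf2]; exact ham_mul hu (ham_inv hw), fun x => ?_, fun x hx => ?_⟩
  · rw [hf2, mul_apply]
    apply h1
    by_cases hx : x ∈ W
    · have h2 := (hw2.inv.maps hx).2
      have h3 := hx.2
      rw [Metric.mem_ball] at h2 h3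
      have := dist_triangle_right x (w⁻¹ x) 0
      linarith
    · rw [hw2.inv x hx, dist_self]
      exact hδ
  · rw [hf2, mul_apply, hw2.inv x fun hxW => ?_]
    have : Q x < 1 / 4 := hxW.1
    linarith

/-- `N` is uniformly dense, with control of the supports -/
theorem dense {N : Subgroup (E n ≃ₜ E n)} (hN : NormBy (HamS n) N)
    (hc : ∀ u v : E n ≃ₜ E n, IsHam u → IsHam v → ⁅u, v⁆ ∈ N) {φ : E n ≃ₜ E n}
    (hφ : φ ∈ HamBar n) :
    ∃ K : Set (E n), IsCompact K ∧ K ⊆ {p : E n | Q p < 1} ∧ Sup K φ ∧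
      ∀ ε > 0, ∃ f ∈ N, IsHam f ∧ Sup K f ∧ ∀ x, dist (φ x) (f x) < ε := by
  obtain ⟨K, hK, hK1, h1, u, hu1, hu2, hu3⟩ := mem_iff'.1 hφ
  refine ⟨K ∪ {x | Q x ≤ 1 / 4}, hK.union (Q_compact _), union_subset hK1 fun x hx => ?_,
    fun x hx => h1 x fun h => hx (Or.inl h), fun ε hε => ?_⟩
  · have : Q x ≤ 1 / 4 := hx
    show Q x < 1
    linarith
  · rw [Metric.tendstoUniformly_iff] at hu3
    obtain ⟨k, hk⟩ := (hu3 (ε / 2) (half_pos hε)).exists
    obtain ⟨f, hf1, hf2, hf3, hf4⟩ := approx hN hc (hu2 k) (half_pos hε)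
    refine ⟨f, hf1, hf2, fun x hx => ?_, fun x => ?_⟩
    · rw [mem_union, not_or] at hx
      have h2 : ¬ Q x ≤ 1 / 4 := hx.2
      rw [hf4 x (by linarith), hu1 k x hx.1]
    · calc dist (φ x) (f x) ≤ dist (φ x) (u k x) + dist (u k x) (f x) := dist_triangle _ _ _
        _ < ε / 2 + ε / 2 := add_lt_add (hk x) (hf3 x)
        _ = ε := add_halves ε

theorem NormBy.mono {P P' N : Subgroup (E n ≃ₜ E n)} (h : P' ≤ P) (hN : NormBy P N) :
    NormBy P' N := fun g hg => hN g (h hg)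

/-- the compact set `W` is displaced by a Hamiltonian homeomorphism -/
def Displ (W : Set (E n)) : Prop := IsCompact W ∧ ∃ T ∈ HamBar n, Disjoint (T '' W) W

theorem displ_comm {N : Subgroup (E n ≃ₜ E n)} (hN : NormBy (HamBar n) N)
    (hc : ∀ u v : E n ≃ₜ E n, IsHam u → IsHam v → ⁅u, v⁆ ∈ N) {W : Set (E n)} (hW : Displ W)
    {g h : E n ≃ₜ E n} (hg : g ∈ HamBar n) (hh : h ∈ HamBar n) (hgW : Sup W g) (hhW : Sup W h) :
    ⁅g, h⁆ ∈ N := by
  obtain ⟨hWc, T, hT, hd⟩ := hW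
  obtain ⟨δ, hδ, h1⟩ := hd.exists_thickenings (hWc.image T.continuous) hWc.isClosed
  obtain ⟨K, -, -, -, h2⟩ := dense (hN.mono HamS_le) hc hT
  obtain ⟨f, hf, -, -, hf3⟩ := h2 δ hδ
  refine disp_trick hN hf ?_ hg hh hgW hhW
  rw [disjoint_left]
  rintro _ ⟨x, hx, rfl⟩ hfx
  have h3 : f x ∈ Metric.thickening δ (T '' W) := by
    rw [Metric.mem_thickening_iff]
    exact ⟨T x, ⟨x, hx, rfl⟩, by rw [dist_comm]; exact hf3 x⟩
  exact disjoint_left.1 h1 h3 (Metric.self_subset_thickening hδ _ hfx)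

theorem displ_thick {W : Set (E n)} (hW : Displ W) :
    ∃ δ > 0, Displ (Metric.cthickening δ W) := by
  obtain ⟨hWc, T, hT, hd⟩ := hW
  obtain ⟨δ, hδ, h1⟩ := hd.exists_thickenings (hWc.image T.continuous) hWc.isClosed
  obtain ⟨K, hK, -, hK2, -⟩ := mem_iff'.1 hT
  have huc : UniformContinuous T := (Pool.Agent.Y309.HB.uc (n := n)).2.2.2.2 T K hK hK2 |>.1
  obtain ⟨δ', hδ', h2⟩ := Metric.uniformContinuous_iff.1 huc δ hδ
  refine ⟨min δ δ' / 2, by positivity, hWc.cthickening, T, hT, ?_⟩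
  have hsub : Metric.cthickening (min δ δ' / 2) W ⊆ Metric.thickening (min δ δ') W :=
    Metric.cthickening_subset_thickening' (by positivity) (half_lt_self (by positivity)) W
  rw [disjoint_left]
  rintro _ ⟨x, hx, rfl⟩ hTx
  have h3 : T x ∈ Metric.thickening δ (T '' W) := by
    obtain ⟨y, hy, hxy⟩ := Metric.mem_thickening_iff.1 (hsub hx)
    rw [Metric.mem_thickening_iff]
    exact ⟨T y, ⟨y, hy, rfl⟩, h2 (hxy.trans_le (min_le_right _ _))⟩
  exact disjoint_left.1 h1 h3 (Metric.thickening_mono (min_le_left _ _) _ (hsub hTx))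

/-- elements supported in a displaceable set and Hamiltonian diffeomorphisms commute modulo `N` -/
theorem displ_comm_ham {N : Subgroup (E n ≃ₜ E n)} (hN : NormBy (HamBar n) N)
    (hc : ∀ u v : E n ≃ₜ E n, IsHam u → IsHam v → ⁅u, v⁆ ∈ N) {W : Set (E n)} (hW : Displ W)
    {g k : E n ≃ₜ E n} (hg : g ∈ HamBar n) (hgW : Sup W g) (hk : IsHam k) : ⁅g, k⁆ ∈ N := by
  obtain ⟨δ, hδ, hW2⟩ := displ_thick hW
  obtain ⟨K, -, -, hk2⟩ := frag hk
  apply comm_symm
  refine closure_comm_left hN ((small_sub K (δ / 2)).trans HamS_le) (fun a ha => comm_symm ?_) k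
    (hk2 (δ / 2) (by positivity))
  obtain ⟨ha1, ha2, p, ha3⟩ := ha
  have sa : Sup (Metric.ball p (δ / 2)) a := fun x hx => ha3 x (by
    rw [Metric.mem_ball, not_lt] at hx
    exact hx)
  by_cases hd : Disjoint W (Metric.ball p (δ / 2))
  · rw [comm_one (hgW.comm sa hd)]
    exact N.one_mem
  · obtain ⟨x, hxW, hxp⟩ := not_disjoint_iff.1 hd
    refine displ_comm hN hc hW2 hg (ham_mem' ha1) (hgW.mono (Metric.self_subset_cthickening W))
      (sa.mono fun y hy => ?_)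
    apply Metric.mem_cthickening_of_dist_le y x δ W hxW
    rw [Metric.mem_ball] at hxp hy
    have := dist_triangle_right y x p
    linarith

end Pool.Agent.X277.Ham
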