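import Pool.Agent.X277.Ham.Norm2

/-!
# Normal subgroups of the group of Hamiltonian homeomorphisms: the smallest one is simple
-/

set_option autoImplicit false

open Set Filter Topology Function
open scoped NNReal commutatorElement

namespace Pool.Agent.X277.Ham

open Pool.Agent.Y453.HB

variable {n : ℕ}

theorem Q_zero : Q (0 : E n) = 0 := by
  have := Q_smul (n := n) 0 0
  simpa using this

theorem Q_neg (x : E n) : Q (-x) = Q x := by
  have := Q_smul (n := n) (-1) x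
  rw [neg_one_smul] at this
  rw [this]
  ring

theorem sqrtQ_sub (x y : E n) : √(Q (x - y)) ≤ √(Q x) + √(Q y) := by
  rw [sub_eq_add_neg, ← Q_neg y]
  exact sqrtQ_add _ _

/-- the closed Euclidean ball -/
def cb (r : ℝ) : Set (E n) := {x | Q x ≤ r ^ 2}

theorem cb_compact (r : ℝ) : IsCompact (cb r : Set (E n)) := Q_compact _

theorem mem_cb {r : ℝ} (hr : 0 ≤ r) {x : E n} : x ∈ (cb r : Set (E n)) ↔ √(Q x) ≤ r :=
  (Real.sqrt_le_left hr).symm

/-- the point `(1/2, 0, …)` -/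
noncomputable def bb (hn : 0 < n) : E n := (Pi.single ⟨0, hn⟩ (1 / 2), 0)

theorem Q_bb (hn : 0 < n) : Q (bb hn) = (1 / 2) ^ 2 := by
  unfold Q bb
  rw [Finset.sum_eq_single ⟨0, hn⟩]
  · simp
  · intro i _ hi
    simp [Pi.single_eq_of_ne hi]
  · intro hi; exact absurd (Finset.mem_univ _) hi

theorem displ_cb (hn : 0 < n) {r : ℝ} (hr0 : 0 < r) (hr : r < 1 / 2) :
    Displ (cb r : Set (E n)) := by
  refine ⟨cb_compact r, ?_⟩
  set b : E n := bb hn with hb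
  have hsb : √(Q b) = 1 / 2 := by
    rw [hb, Q_bb, Real.sqrt_sq (by norm_num)]
  obtain ⟨R, hR, hR2⟩ := rot' b (r := r) (d := 1 / 2) hr0 (by norm_num) (Q_bb hn) (by linarith)
  obtain ⟨S, hS, hS2⟩ := rot' (0 : E n) (r := 1 / 2 + r) (d := 0) (by linarith) le_rfl
    (by rw [Q_zero]; norm_num) (by linarith)
  have h1 : ∀ x ∈ (cb r : Set (E n)), R x = b - x := by
    intro x hx
    rw [mem_cb hr0.le] at hx
    apply hR2
    have h2 := sqrtQ_sub x ((1 / 2 : ℝ) • b)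
    rw [Q_smul, Real.sqrt_mul (by norm_num), Real.sqrt_sq (by norm_num), hsb] at h2
    linarith
  have h3 : ∀ x ∈ (cb r : Set (E n)), S (b - x) = -(b - x) := by
    intro x hx
    rw [mem_cb hr0.le] at hx
    rw [hS2, zero_sub]
    rw [smul_zero, sub_zero]
    have h2 := sqrtQ_sub b x
    linarith
  refine ⟨R⁻¹ * S * R, (HamBar n).mul_mem ((HamBar n).mul_mem ((HamBar n).inv_mem (ham_mem' hR))
    (ham_mem' hS)) (ham_mem' hR), ?_⟩
  rw [disjoint_left]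
  rintro _ ⟨x, hx, rfl⟩ hy
  set y := (R⁻¹ * S * R) x with hy'
  have h4 : R y = S (R x) := by
    rw [hy', mul_apply, mul_apply, apply_inv_self]
  rw [h1 x hx, h1 y hy, h3 x hx] at h4
  have h5 : x + y = (2 : ℝ) • b := by
    rw [two_smul]
    have : b - y + (b - x) = 0 := by rw [h4]; abel
    have h6 : b + b - (x + y) = 0 := by rw [← this]; abel
    exact (sub_eq_zero.1 h6).symm
  have h6 := sqrtQ_add x y
  rw [h5, Q_smul, Real.sqrt_mul (by norm_num), Real.sqrt_sq (by norm_num), hsb] at h6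
  rw [mem_cb hr0.le] at hx hy
  linarith

theorem Displ.image {W : Set (E n)} (hW : Displ W) {k : E n ≃ₜ E n} (hk : k ∈ HamBar n) :
    Displ (k '' W) := by
  obtain ⟨hWc, T, hT, hd⟩ := hW
  refine ⟨hWc.image k.continuous, k * T * k⁻¹, (HamBar n).mul_mem ((HamBar n).mul_mem hk hT)
    ((HamBar n).inv_mem hk), ?_⟩
  rw [disjoint_left]
  rintro _ ⟨_, ⟨x, hx, rfl⟩, rfl⟩ ⟨y, hy, hy2⟩
  rw [mul_apply, mul_apply, inv_apply_self] at hy2
  have h1 := k.injective hy2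
  exact disjoint_left.1 hd ⟨x, hx, h1.symm⟩ hy

theorem Displ.mono {W V : Set (E n)} (hW : Displ W) (hV : IsCompact V) (h : V ⊆ W) :
    Displ V := by
  obtain ⟨-, T, hT, hd⟩ := hW
  exact ⟨hV, T, hT, hd.mono (image_mono h) h⟩

/-- a nontrivial Hamiltonian diffeomorphism with small support -/
theorem exists_small (hn : 0 < n) {r : ℝ} (hr0 : 0 < r) (hr : r ≤ 1) :
    ∃ g : E n ≃ₜ E n, IsHam g ∧ Sup (cb r) g ∧ g ≠ 1 := by
  obtain ⟨R, a, hR, ha, hR2⟩ := Pool.Agent.Y945.HB.rot tri n hn (1 / 4) (1 / 2) (by norm_num)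
    (by norm_num) (by norm_num)
  obtain ⟨K, hK, hK1, hfix⟩ := ham_support hR
  refine ⟨dil r hr0 * R * (dil r hr0)⁻¹, Pool.Agent.Y419.HB.dil_ham n r hr0 hr R hR, ?_, ?_⟩
  · intro x hx
    rw [mul_apply, mul_apply, dil_inv_apply, dil_apply, hfix, smul_smul, mul_inv_cancel₀ hr0.ne',
      one_smul]
    intro hc
    have h1 : Q (r⁻¹ • x) < 1 := hK1 hc
    rw [Q_smul, inv_pow, inv_mul_lt_iff₀ (by positivity), mul_one] at h1
    exact hx h1.le
  · intro h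
    have h1 : (dil r hr0 * R * (dil r hr0)⁻¹ : E n ≃ₜ E n) 0 = 0 := by
      rw [h]
      rfl
    rw [mul_apply, mul_apply, dil_inv_apply, dil_apply, smul_zero, hR2 0 (by
      rw [Q_zero]
      norm_num), sub_zero, smul_eq_zero] at h1
    rcases h1 with h1 | h1
    · exact hr0.ne' h1
    · rw [h1, Q_zero] at ha
      norm_num at ha

/-- noncommuting Hamiltonian diffeomorphisms -/
theorem exists_noncomm (hn : 0 < n) : ∃ u v : E n ≃ₜ E n, IsHam u ∧ IsHam v ∧ ⁅u, v⁆ ≠ 1 := by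
  obtain ⟨g, hg1, hg2, hg3⟩ := exists_small hn (r := 1 / 8) (by norm_num) (by norm_num)
  obtain ⟨R, a, hR, ha, hR2⟩ := Pool.Agent.Y945.HB.rot tri n hn (1 / 8) (1 / 2) (by norm_num)
    (by norm_num) (by norm_num)
  refine ⟨R, g, hR, hg1, fun h => hg3 ?_⟩
  have h1 : R * g * R⁻¹ = g := by
    have := (commutatorElement_eq_one_iff_commute.1 h).eq
    rw [this, mul_inv_cancel_right]
  refine Homeomorph.ext fun x => ?_
  by_cases hx : x ∈ (cb (1 / 8) : Set (E n))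
  · have h2 : x ∉ R '' (cb (1 / 8)) := by
      rintro ⟨y, hy, rfl⟩
      rw [hR2 y hy, mem_cb (by norm_num)] at hx
      rw [mem_cb (by norm_num)] at hy
      have h3 := sqrtQ_add (a - y) y
      rw [sub_add_cancel, ha, Real.sqrt_sq (by norm_num)] at h3
      linarith
    have h3 := hg2.conj R x h2
    rwa [h1] at h3
  · exact hg2 x hx

/-- the commutator subgroup of the Hamiltonian diffeomorphisms -/
def P0 (n : ℕ) : Subgroup (E n ≃ₜ E n) :=
  Subgroup.closure {f | ∃ u v : E n ≃ₜ E n, IsHam u ∧ IsHam v ∧ f = ⁅u, v⁆}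

theorem mem_P0 {u v : E n ≃ₜ E n} (hu : IsHam u) (hv : IsHam v) : ⁅u, v⁆ ∈ P0 n :=
  Subgroup.subset_closure ⟨u, v, hu, hv, rfl⟩

theorem P0_le {N : Subgroup (E n ≃ₜ E n)}
    (h : ∀ u v : E n ≃ₜ E n, IsHam u → IsHam v → ⁅u, v⁆ ∈ N) : P0 n ≤ N := by
  rw [P0, Subgroup.closure_le]
  rintro _ ⟨u, v, hu, hv, rfl⟩
  exact h u v hu hv

theorem conj_comm {G : Type*} [Group G] (k a b : G) :
    k * ⁅a, b⁆ * k⁻¹ = ⁅k * a * k⁻¹, k * b * k⁻¹⁆ := by
  simp only [commutatorElement_def]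
  group

theorem ham_conj {u v : E n ≃ₜ E n} (hu : IsHam u) (hv : IsHam v) : IsHam (u * v * u⁻¹) :=
  ham_mul (ham_mul hu hv) (ham_inv hu)

theorem normBy_closure {P : Subgroup (E n ≃ₜ E n)} {S : Set (E n ≃ₜ E n)}
    (h : ∀ g ∈ P, ∀ f ∈ S, g * f * g⁻¹ ∈ Subgroup.closure S) :
    NormBy P (Subgroup.closure S) := by
  intro g hg f hf
  refine Subgroup.closure_induction (p := fun f _ => g * f * g⁻¹ ∈ Subgroup.closure S) (h g hg)
    ?_ ?_ ?_ hf
  · rw [mul_one, mul_inv_cancel]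
    exact Subgroup.one_mem _
  · intro x y _ _ hx hy
    have e : g * (x * y) * g⁻¹ = (g * x * g⁻¹) * (g * y * g⁻¹) := by group
    rw [e]
    exact Subgroup.mul_mem _ hx hy
  · intro x _ hx
    have e : g * x⁻¹ * g⁻¹ = (g * x * g⁻¹)⁻¹ := by group
    rw [e]
    exact Subgroup.inv_mem _ hx

theorem P0_norm : NormBy (HamS n) (P0 n) := by
  apply normBy_closure
  rintro g hg _ ⟨u, v, hu, hv, rfl⟩
  rw [conj_comm]
  exact mem_P0 (ham_conj hg hu) (ham_conj hg hv)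

theorem P0_ham : P0 n ≤ HamS n := by
  rw [P0, Subgroup.closure_le]
  rintro _ ⟨u, v, hu, hv, rfl⟩
  rw [commutatorElement_def]
  exact ham_mul (ham_mul (ham_mul hu hv) (ham_inv hu)) (ham_inv hv)

/-- on a ball, Hamiltonian diffeomorphisms agree with elements of the commutator subgroup -/
theorem agree (hn : 0 < n) {r : ℝ} (hr0 : 0 ≤ r) (hr : r < 1) {φ : E n ≃ₜ E n} (hφ : IsHam φ) :
    ∃ m ∈ P0 n, ∀ x ∈ (cb r : Set (E n)), m x = φ x := by
  -- a point outside the ball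
  set z : E n := (r + 1) • bb hn with hz
  have hQz : √(Q z) = (r + 1) / 2 := by
    rw [hz, Q_smul, Q_bb, Real.sqrt_mul (by positivity), Real.sqrt_sq (by linarith),
      Real.sqrt_sq (by norm_num)]
    ring
  have hz1 : Q z < 1 := by
    have : √(Q z) < 1 := by linarith
    rw [Real.sqrt_lt' one_pos] at this
    simpa using this
  have hz2 : z ∈ ((cb r : Set (E n))ᶜ) := by
    intro h
    rw [mem_cb hr0] at h
    linarith
  obtain ⟨f, hf, w, hw, hw2, hfw⟩ := factor P0_norm (fun u v hu hv => mem_P0 hu hv)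
    (cb_compact r).isClosed.isOpen_compl hz2 hz1 hφ
  refine ⟨f, hf, fun x hx => ?_⟩
  rw [hfw, mul_apply, hw2 x fun h => h hx]

/-- local condition for containing all commutators of Hamiltonian diffeomorphisms -/
theorem ham_comm_of_local {N : Subgroup (E n ≃ₜ E n)} (hN : NormBy (HamS n) N)
    (hloc : ∀ q : E n, Q q < 1 → ∃ U : Set (E n), IsOpen U ∧ q ∈ U ∧
      ∀ a b, IsHam a → IsHam b → Sup U a → Sup U b → ⁅a, b⁆ ∈ N)
    {u v : E n ≃ₜ E n} (hu : IsHam u) (hv : IsHam v) : ⁅u, v⁆ ∈ N := by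
  obtain ⟨K, hK, hK1, hu2⟩ := frag hu
  obtain ⟨L, hL, hL1, hv2⟩ := frag hv
  obtain ⟨δ, hδ, h1⟩ := lebesgue (hK.union hL)
    (P := fun W => ∀ a b : E n ≃ₜ E n, IsHam a → IsHam b → Sup W a → Sup W b → ⁅a, b⁆ ∈ N)
    (fun A B hAB h a b ha hb h1 h2 => h a b ha hb (h1.mono hAB) (h2.mono hAB))
    (fun q hq => hloc q (union_subset hK1 hL1 hq))
  refine closure_comm hN (small_sub (K ∪ L) (δ / 2)) (small_sub (K ∪ L) (δ / 2))
    (fun a ha b hb => small_comm h1 ha hb) u ?_ v ?_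
  · exact Subgroup.closure_mono (small_mono subset_union_left le_rfl) (hu2 (δ / 2) (by positivity))
  · exact Subgroup.closure_mono (small_mono subset_union_right le_rfl) (hv2 (δ / 2) (by positivity))

theorem small_images {α β : E n ≃ₜ E n} {p : E n} (h : α p ≠ β p) :
    ∀ᶠ r in 𝓝[>] (0 : ℝ), Disjoint (α '' Metric.closedBall p r) (β '' Metric.closedBall p r) := by
  obtain ⟨U, V, hU, hV, hpU, hpV, hUV⟩ := t2_separation h
  have h1 : (α ⁻¹' U) ∩ (β ⁻¹' V) ∈ 𝓝 p :=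
    Filter.inter_mem (α.continuous.continuousAt.preimage_mem_nhds (hU.mem_nhds hpU))
      (β.continuous.continuousAt.preimage_mem_nhds (hV.mem_nhds hpV))
  obtain ⟨s, hs, h2⟩ := Metric.mem_nhds_iff.1 h1
  filter_upwards [Ioo_mem_nhdsGT hs] with r hr
  rw [disjoint_left]
  rintro _ ⟨x, hx, rfl⟩ ⟨y, hy, hxy⟩
  have hx' := (h2 (Metric.mem_ball.2 ((Metric.mem_closedBall.1 hx).trans_lt hr.2))).1
  have hy' := (h2 (Metric.mem_ball.2 ((Metric.mem_closedBall.1 hy).trans_lt hr.2))).2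
  rw [mem_preimage] at hx' hy'
  rw [hxy] at hy'
  exact disjoint_left.1 hUV hx' hy'

/-- nontrivial subgroups normalized by `M` contain the commutators of Hamiltonian diffeomorphisms -/
theorem simple_core (hn : 0 < n) {M K : Subgroup (E n ≃ₜ E n)} (hMG : M ≤ HamBar n)
    (hM : NormBy (HamBar n) M) (hPM : P0 n ≤ M) (hK : NormBy M K) (hKM : K ≤ M) (hne : K ≠ ⊥) :
    P0 n ≤ K := by
  have hcM : ∀ u v : E n ≃ₜ E n, IsHam u → IsHam v → ⁅u, v⁆ ∈ M :=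
    fun u v hu hv => hPM (mem_P0 hu hv)
  obtain ⟨⟨f, hf⟩, hf1⟩ := Subgroup.ne_bot_iff_exists_ne_one.1 hne
  have hf2 : ∃ p, f p ≠ p := by
    by_contra hc
    push Not at hc
    exact hf1 (Subtype.ext (Homeomorph.ext hc))
  obtain ⟨p, hp⟩ := hf2
  have hpQ := moved (hMG (hKM hf)) hp
  -- auxiliary points
  have hinf : {x : E n | Q x < 1}.Infinite := by
    have hnt : Nontrivial (E n) := by
      refine ⟨⟨bb hn, 0, fun h => ?_⟩⟩
      have := Q_bb hn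
      rw [h, Q_zero] at this
      norm_num at this
    have : (𝓝[≠] p).NeBot := Module.punctured_nhds_neBot ℝ (E n) p
    exact infinite_of_mem_nhds p (isOpen_ball.mem_nhds hpQ)
  obtain ⟨p₁, hp₁, hp₁'⟩ := hinf.exists_notMem_finset {p, f⁻¹ p}
  obtain ⟨p₂, hp₂, hp₂'⟩ := hinf.exists_notMem_finset {p, p₁, f p, f p₁}
  simp only [Finset.mem_insert, Finset.mem_singleton, not_or] at hp₁' hp₂'
  obtain ⟨k₁, hk₁, e₁⟩ := trans (p := p₁) (q := p) hp₁ hpQ
  obtain ⟨k₂, hk₂, e₂⟩ := trans (p := p₂) (q := p) hp₂ hpQ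
  have n1 : (k₁ : E n ≃ₜ E n) p ≠ (1 : E n ≃ₜ E n) p := by rw [e₁]; exact hp₁'.1
  have n2 : (f : E n ≃ₜ E n) p ≠ (1 : E n ≃ₜ E n) p := hp
  have n3 : (f * k₁ : E n ≃ₜ E n) p ≠ (1 : E n ≃ₜ E n) p := by
    rw [mul_apply, e₁]
    intro h
    exact hp₁'.2 (by
      have : f p₁ = p := h
      rw [← this, inv_apply_self])
  have n4 : (k₁ : E n ≃ₜ E n) p ≠ k₂ p := by rw [e₁, e₂]; exact fun h => hp₂'.2.1 h.symm
  have n5 : (f : E n ≃ₜ E n) p ≠ k₂ p := by rw [e₂]; exact fun h => hp₂'.2.2.1 h.symm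
  have n6 : (f * k₁ : E n ≃ₜ E n) p ≠ k₂ p := by
    rw [mul_apply, e₁, e₂]; exact fun h => hp₂'.2.2.2 h.symm
  have n7 : (k₂ : E n ≃ₜ E n) p ≠ (1 : E n ≃ₜ E n) p := by rw [e₂]; exact hp₂'.1
  have hev := (small_images n1).and ((small_images n2).and ((small_images n3).and
    ((small_images n4).and ((small_images n5).and ((small_images n6).and (small_images n7))))))
  obtain ⟨r, ⟨d1, d2, d3, d4, d5, d6, d7⟩, hr⟩ := (hev.and self_mem_nhdsWithin).exists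
  set U : Set (E n) := Metric.closedBall p r with hU
  have one_img : (1 : E n ≃ₜ E n) '' U = U := by
    ext x
    constructor
    · rintro ⟨y, hy, rfl⟩
      exact hy
    · intro hx
      exact ⟨x, hx, rfl⟩
  rw [one_img] at d1 d2 d3 d7
  have hUd : Displ U := ⟨isCompact_closedBall p r, k₁, ham_mem' hk₁, d1⟩
  -- the local statement
  have hloc : ∀ g h : E n ≃ₜ E n, g ∈ HamBar n → h ∈ HamBar n → Sup U g → Sup U h →
      ⁅g, h⁆ ∈ K := by
    intro g h hg hh hgU hhU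
    have m1 : ⁅g, k₁⁆ ∈ M := displ_comm_ham hM hcM hUd hg hgU hk₁
    have m2 : ⁅h, k₂⁆ ∈ M := displ_comm_ham hM hcM hUd hh hhU hk₂
    have m3 : ⁅⁅g, k₁⁆, f⁆ ∈ K := by
      rw [commutatorElement_def ⁅g, k₁⁆ f]
      exact K.mul_mem (hK _ m1 f hf) (K.inv_mem hf)
    have m4 : ⁅⁅⁅g, k₁⁆, f⁆, ⁅h, k₂⁆⁆ ∈ K := by
      have e : ⁅⁅⁅g, k₁⁆, f⁆, ⁅h, k₂⁆⁆ =
          ⁅⁅g, k₁⁆, f⁆ * (⁅h, k₂⁆ * ⁅⁅g, k₁⁆, f⁆⁻¹ * ⁅h, k₂⁆⁻¹) := by
        rw [commutatorElement_def ⁅⁅g, k₁⁆, f⁆ ⁅h, k₂⁆]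
        group
      rw [e]
      exact K.mul_mem m3 (hK _ m2 _ (K.inv_mem m3))
    set g₂ := k₁ * g⁻¹ * k₁⁻¹ with hg₂
    set h₂ := k₂ * h⁻¹ * k₂⁻¹ with hh₂
    have sg₂ : Sup (k₁ '' U) g₂ := hgU.inv.conj k₁
    have sh₂ : Sup (k₂ '' U) h₂ := hhU.inv.conj k₂
    have eg : ⁅g, k₁⁆ = g * g₂ := by
      rw [commutatorElement_def, hg₂]
      group
    have eh : ⁅h, k₂⁆ = h * h₂ := by
      rw [commutatorElement_def, hh₂]
      group
    set c := g₂ * (f * g₂⁻¹ * f⁻¹) * (f * g⁻¹ * f⁻¹) with hc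
    have egf : ⁅⁅g, k₁⁆, f⁆ = g * c := by
      rw [eg, hc, commutatorElement_def]
      group
    have sfg₂ : Sup ((f * k₁) '' U) (f * g₂⁻¹ * f⁻¹) := by
      have h1 := sg₂.inv.conj f
      have h2 : f '' (k₁ '' U) = (f * k₁) '' U := by
        rw [image_image]
        rfl
      rwa [h2] at h1
    have sfg : Sup (f '' U) (f * g⁻¹ * f⁻¹) := hgU.inv.conj f
    have c1 : Commute c h := by
      refine Commute.mul_left (Commute.mul_left ?_ ?_) ?_
      · exact sg₂.comm hhU d1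
      · exact sfg₂.comm hhU d3
      · exact sfg.comm hhU d2
    have c2 : Commute c h₂ := by
      refine Commute.mul_left (Commute.mul_left ?_ ?_) ?_
      · exact sg₂.comm sh₂ d4
      · exact sfg₂.comm sh₂ d6
      · exact sfg.comm sh₂ d5
    have c3 : Commute g h₂ := hgU.comm sh₂ d7.symm
    rw [egf, eh, comm_lemma (c1.mul_right c2) c3] at m4
    exact m4
  -- a round ball
  have hUn : U ∈ 𝓝 p := Metric.closedBall_mem_nhds p hr
  obtain ⟨k, hk, -, hk0⟩ := trans0 hpQ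
  have hρ : ∃ ρ : ℝ, 0 < ρ ∧ ρ < 1 ∧ k '' (cb ρ) ⊆ U := by
    have h1 : k ⁻¹' U ∈ 𝓝 (0 : E n) := by
      apply k.continuous.continuousAt.preimage_mem_nhds
      rw [hk0]
      exact hUn
    obtain ⟨s, hs, h2⟩ := Metric.mem_nhds_iff.1 h1
    refine ⟨min (s / 2) (1 / 2), by positivity, (min_le_right _ _).trans_lt (by norm_num), ?_⟩
    rintro _ ⟨x, hx, rfl⟩
    apply h2
    rw [mem_cb (by positivity)] at hx
    rw [Metric.mem_ball, dist_zero_right]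
    have h3 := norm_le x
    have h4 : min (s / 2) (1 / 2) ≤ s / 2 := min_le_left _ _
    linarith
  obtain ⟨ρ, hρ0, hρ1, hkρ⟩ := hρ
  have hρloc : ∀ g h : E n ≃ₜ E n, g ∈ HamBar n → h ∈ HamBar n → Sup (cb ρ) g → Sup (cb ρ) h →
      ⁅g, h⁆ ∈ K := by
    intro g h hg hh hg2 hh2
    obtain ⟨m, hm, hm2⟩ := agree hn hρ0.le hρ1 hk
    have himg : m '' (cb ρ) ⊆ U := by
      rintro _ ⟨x, hx, rfl⟩
      rw [hm2 x hx]
      exact hkρ ⟨x, hx, rfl⟩
    have hmG := hMG (hPM hm)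
    have h3 := hloc (m * g * m⁻¹) (m * h * m⁻¹)
      ((HamBar n).mul_mem ((HamBar n).mul_mem hmG hg) ((HamBar n).inv_mem hmG))
      ((HamBar n).mul_mem ((HamBar n).mul_mem hmG hh) ((HamBar n).inv_mem hmG))
      ((hg2.conj m).mono himg) ((hh2.conj m).mono himg)
    have h4 := hK m⁻¹ (M.inv_mem (hPM hm)) _ h3
    rw [← conj_comm] at h4
    have e : m⁻¹ * (m * ⁅g, h⁆ * m⁻¹) * (m⁻¹)⁻¹ = ⁅g, h⁆ := by group
    rwa [e] at h4
  have hφloc : ∀ φ : E n ≃ₜ E n, IsHam φ → ∀ g h : E n ≃ₜ E n, g ∈ HamBar n → h ∈ HamBar n →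
      Sup (φ '' cb ρ) g → Sup (φ '' cb ρ) h → ⁅g, h⁆ ∈ K := by
    intro φ hφ g h hg hh hg2 hh2
    obtain ⟨m, hm, hm2⟩ := agree hn hρ0.le hρ1 hφ
    have himg : (m⁻¹ : E n ≃ₜ E n) '' (φ '' cb ρ) ⊆ cb ρ := by
      rintro _ ⟨_, ⟨x, hx, rfl⟩, rfl⟩
      rw [← hm2 x hx, inv_apply_self]
      exact hx
    have hmG := hMG (hPM hm)
    have hmG' := (HamBar n).inv_mem hmG
    have h3 := hρloc (m⁻¹ * g * (m⁻¹)⁻¹) (m⁻¹ * h * (m⁻¹)⁻¹)
      ((HamBar n).mul_mem ((HamBar n).mul_mem hmG' hg) ((HamBar n).inv_mem hmG'))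
      ((HamBar n).mul_mem ((HamBar n).mul_mem hmG' hh) ((HamBar n).inv_mem hmG'))
      ((hg2.conj m⁻¹).mono himg) ((hh2.conj m⁻¹).mono himg)
    have h4 := hK m (hPM hm) _ h3
    rw [← conj_comm] at h4
    have e : m * (m⁻¹ * ⁅g, h⁆ * (m⁻¹)⁻¹) * m⁻¹ = ⁅g, h⁆ := by group
    rwa [e] at h4
  -- the subgroup generated by the local commutators
  set S : Set (E n ≃ₜ E n) := {x | ∃ φ g h : E n ≃ₜ E n, IsHam φ ∧ IsHam g ∧ IsHam h ∧
    Sup (φ '' cb ρ) g ∧ Sup (φ '' cb ρ) h ∧ x = ⁅g, h⁆} with hS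
  have hSK : Subgroup.closure S ≤ K := by
    rw [Subgroup.closure_le]
    rintro _ ⟨φ, g, h, hφ, hg, hh, h1, h2, rfl⟩
    exact hφloc φ hφ g h (ham_mem' hg) (ham_mem' hh) h1 h2
  have hSN : NormBy (HamS n) (Subgroup.closure S) := by
    apply normBy_closure
    rintro u hu _ ⟨φ, g, h, hφ, hg, hh, h1, h2, rfl⟩
    rw [conj_comm]
    refine Subgroup.subset_closure ⟨u * φ, u * g * u⁻¹, u * h * u⁻¹, ham_mul hu hφ,
      ham_conj hu hg, ham_conj hu hh, ?_, ?_, rfl⟩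
    · have := h1.conj u
      rw [image_image] at this
      exact this
    · have := h2.conj u
      rw [image_image] at this
      exact this
  refine (P0_le fun u v hu hv => ?_).trans hSK
  refine ham_comm_of_local hSN (fun q hq => ?_) hu hv
  obtain ⟨φ, hφ, -, hφ0⟩ := trans0 hq
  refine ⟨φ '' {x | Q x < ρ ^ 2}, φ.isOpenMap _ (isOpen_lt Q_cont continuous_const),
    ⟨0, ?_, hφ0⟩, fun a b ha hb ha2 hb2 => ?_⟩
  · show Q (0 : E n) < ρ ^ 2
    rw [Q_zero]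
    positivity
  · have hsub0 : {x : E n | Q x < ρ ^ 2} ⊆ cb ρ := by
      intro x hx
      have h1 : Q x < ρ ^ 2 := hx
      exact h1.le
    have hsub : φ '' {x : E n | Q x < ρ ^ 2} ⊆ φ '' cb ρ := image_mono hsub0
    exact Subgroup.subset_closure ⟨φ, a, b, hφ, ha, hb, ha2.mono hsub, hb2.mono hsub, rfl⟩

end Pool.Agent.X277.Ham
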