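import Pool.Agent.X277.Ham.Norm3

/-!
# The smallest normal subgroup of the group of Hamiltonian homeomorphisms
-/

set_option autoImplicit false

open Set Filter Topology Function
open scoped NNReal commutatorElement

namespace Pool.Agent.X277.Ham

open Pool.Agent.Y453.HB

variable {n : ℕ}

/-- a subgroup of the group as a group of homeomorphisms -/
def up (N : Subgroup (HamBar n)) : Subgroup (E n ≃ₜ E n) := N.map (HamBar n).subtype

theorem mem_up {N : Subgroup (HamBar n)} {φ : HamBar n} : (φ : E n ≃ₜ E n) ∈ up N ↔ φ ∈ N := by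
  constructor
  · rintro ⟨ψ, h1, h2⟩
    have : ψ = φ := Subtype.ext h2
    rwa [this] at h1
  · intro h
    exact ⟨φ, h, rfl⟩

theorem up_le (N : Subgroup (HamBar n)) : up N ≤ HamBar n := by
  rintro _ ⟨φ, -, rfl⟩
  exact φ.2

theorem up_norm {N : Subgroup (HamBar n)} (hN : N.Normal) : NormBy (HamBar n) (up N) := by
  rintro g hg _ ⟨φ, h, rfl⟩
  have := hN.conj_mem φ h ⟨g, hg⟩
  exact mem_up.2 this

theorem up_ne {N : Subgroup (HamBar n)} (hN : N ≠ ⊥) : up N ≠ ⊥ := by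
  intro h
  apply hN
  rw [Subgroup.eq_bot_iff_forall]
  intro x hx
  have h1 := mem_up.2 hx
  rw [h, Subgroup.mem_bot] at h1
  exact Subtype.ext h1

theorem P0_le_up {N : Subgroup (HamBar n)} (hN : N.Normal) (hne : N ≠ ⊥) : P0 n ≤ up N :=
  P0_le fun _ _ hu hv => ham_comm (up_norm hN) (up_le N) (up_ne hne) hu hv

/-- the smallest nontrivial normal subgroup -/
def Mn (n : ℕ) : Subgroup (HamBar n) := sInf {N | N.Normal ∧ N ≠ ⊥}

theorem Mn_le {N : Subgroup (HamBar n)} (hN : N.Normal) (hne : N ≠ ⊥) : Mn n ≤ N :=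
  sInf_le ⟨hN, hne⟩

theorem Mn_normal : (Mn n).Normal := by
  constructor
  intro x hx g
  rw [Mn, Subgroup.mem_sInf] at hx ⊢
  intro N hN
  exact hN.1.conj_mem x (hx N hN) g

theorem P0_le_Mn : P0 n ≤ up (Mn n) := by
  intro f hf
  have hfG : f ∈ HamBar n := HamS_le (P0_ham hf)
  refine (mem_up (φ := ⟨f, hfG⟩)).2 ?_
  rw [Mn, Subgroup.mem_sInf]
  rintro N ⟨hN, hne⟩
  exact mem_up.1 (P0_le_up hN hne hf)

theorem Mn_ne (hn : 0 < n) : Mn n ≠ ⊥ := by
  obtain ⟨u, v, hu, hv, hne⟩ := exists_noncomm hn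
  intro h
  have h1 : ⁅u, v⁆ ∈ up (Mn n) := P0_le_Mn (mem_P0 hu hv)
  rw [h, up, Subgroup.map_bot, Subgroup.mem_bot] at h1
  exact hne h1

theorem Mn_comm {u v : E n ≃ₜ E n} (hu : IsHam u) (hv : IsHam v) : ⁅u, v⁆ ∈ up (Mn n) :=
  P0_le_Mn (mem_P0 hu hv)

/-- the smallest nontrivial normal subgroup is simple -/
theorem Mn_simple (hn : 0 < n) : IsSimpleGroup (Mn n) := by
  have hnt : Nontrivial (Mn n) := (Subgroup.nontrivial_iff_ne_bot _).2 (Mn_ne hn)
  refine ⟨fun K hK => ?_⟩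
  rw [or_iff_not_imp_left]
  intro hne
  -- the subgroup `K` in the whole group
  set L : Subgroup (HamBar n) := K.map (Mn n).subtype with hL
  have hLM : L ≤ Mn n := by
    rintro _ ⟨x, -, rfl⟩
    exact x.2
  have hmemL : ∀ x : Mn n, (x : HamBar n) ∈ L ↔ x ∈ K := by
    intro x
    constructor
    · rintro ⟨y, hy, hyx⟩
      have : y = x := Subtype.ext hyx
      rwa [this] at hy
    · intro h
      exact ⟨x, h, rfl⟩
  have hLne : L ≠ ⊥ := by
    intro h
    apply hne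
    rw [Subgroup.eq_bot_iff_forall]
    intro x hx
    have h1 := (hmemL x).2 hx
    rw [h, Subgroup.mem_bot] at h1
    exact Subtype.ext h1
  have hLnorm : ∀ g ∈ Mn n, ∀ f ∈ L, g * f * g⁻¹ ∈ L := by
    rintro g hg _ ⟨x, hx, rfl⟩
    exact ⟨⟨g, hg⟩ * x * ⟨g, hg⟩⁻¹, hK.conj_mem x hx ⟨g, hg⟩, rfl⟩
  -- conjugates of `L` contain the commutator subgroup
  have hconj : ∀ b : HamBar n, ∀ f ∈ P0 n, (b : E n ≃ₜ E n) * f * (b : E n ≃ₜ E n)⁻¹ ∈ up L := by
    intro b f hf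
    set Kb : Subgroup (E n ≃ₜ E n) := (up L).comap (MulAut.conj (b : E n ≃ₜ E n)).toMonoidHom
      with hKb
    have memKb : ∀ x, x ∈ Kb ↔ (b : E n ≃ₜ E n) * x * (b : E n ≃ₜ E n)⁻¹ ∈ up L := by
      intro x
      rw [hKb, Subgroup.mem_comap]
      rfl
    have hupLM : up L ≤ up (Mn n) := Subgroup.map_mono hLM
    have hMnorm := up_norm (Mn_normal (n := n))
    have hLup : NormBy (up (Mn n)) (up L) := by
      rintro _ ⟨g, hg, rfl⟩ _ ⟨x, hx, rfl⟩
      exact mem_up.2 (hLnorm g hg x hx)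
    have h1 : NormBy (up (Mn n)) Kb := by
      intro g hg x hx
      rw [memKb] at hx ⊢
      have h2 := hLup _ (hMnorm b b.2 g hg) _ hx
      have e : (b : E n ≃ₜ E n) * (g * x * g⁻¹) * (b : E n ≃ₜ E n)⁻¹ =
          ((b : E n ≃ₜ E n) * g * (b : E n ≃ₜ E n)⁻¹) *
            ((b : E n ≃ₜ E n) * x * (b : E n ≃ₜ E n)⁻¹) *
            ((b : E n ≃ₜ E n) * g * (b : E n ≃ₜ E n)⁻¹)⁻¹ := by group
      rw [e]
      exact h2
    have h2 : Kb ≤ up (Mn n) := by
      intro x hx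
      rw [memKb] at hx
      have h3 := hMnorm _ ((HamBar n).inv_mem b.2) _ (hupLM hx)
      have e : (b : E n ≃ₜ E n)⁻¹ * ((b : E n ≃ₜ E n) * x * (b : E n ≃ₜ E n)⁻¹) *
          ((b : E n ≃ₜ E n)⁻¹)⁻¹ = x := by group
      rwa [e] at h3
    have h3 : Kb ≠ ⊥ := by
      intro h
      apply hLne
      rw [Subgroup.eq_bot_iff_forall]
      intro x hx
      have h4 : (b : E n ≃ₜ E n)⁻¹ * (x : E n ≃ₜ E n) * b ∈ Kb := by
        rw [memKb]
        have e : (b : E n ≃ₜ E n) * ((b : E n ≃ₜ E n)⁻¹ * (x : E n ≃ₜ E n) * b) *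
            (b : E n ≃ₜ E n)⁻¹ = x := by group
        rw [e]
        exact mem_up.2 hx
      rw [h, Subgroup.mem_bot] at h4
      have h5 : (x : E n ≃ₜ E n) = 1 := by
        have : (x : E n ≃ₜ E n) = (b : E n ≃ₜ E n) *
            ((b : E n ≃ₜ E n)⁻¹ * (x : E n ≃ₜ E n) * b) * (b : E n ≃ₜ E n)⁻¹ := by group
        rw [this, h4]
        group
      exact Subtype.ext h5
    have h4 := simple_core hn (up_le _) hMnorm P0_le_Mn h1 h2 h3
    exact (memKb f).1 (h4 hf)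
  -- the normal core of `L`
  have hcore : L.normalCore ≠ ⊥ := by
    obtain ⟨u, v, hu, hv, huv⟩ := exists_noncomm hn
    have hP := mem_P0 hu hv
    have hG : ⁅u, v⁆ ∈ HamBar n := HamS_le (P0_ham hP)
    intro h
    have h1 : (⟨⁅u, v⁆, hG⟩ : HamBar n) ∈ L.normalCore := by
      intro b
      exact mem_up.1 (hconj b _ hP)
    rw [h, Subgroup.mem_bot] at h1
    exact huv (congrArg Subtype.val h1)
  have h1 : Mn n ≤ L := (Mn_le inferInstance hcore).trans L.normalCore_le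
  rw [Subgroup.eq_top_iff']
  intro x
  exact (hmemL x).1 (h1 x.2)

end Pool.Agent.X277.Ham
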