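import Pool.Agent.X277.Ham.Norm4

/-!
# The smallest normal subgroup: main statements, and the criterion for simplicity
-/

set_option autoImplicit false

open Set Filter Topology Function
open scoped NNReal commutatorElement

namespace Pool.Agent.X277.Ham

open Pool.Agent.Y453.HB

variable {n : ℕ}

theorem coe_comm (g h : HamBar n) :
    ((⁅g, h⁆ : HamBar n) : E n ≃ₜ E n) = ⁅(g : E n ≃ₜ E n), (h : E n ≃ₜ E n)⁆ := rfl

theorem smallest (hn : 0 < n) : ∃ M : Subgroup (HamBar n), M.Normal ∧ IsSimpleGroup M ∧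
    (∀ N : Subgroup (HamBar n), N.Normal → N ≠ ⊥ → M ≤ N) ∧
    (∀ u v : HamBar n, IsHam (u : E n ≃ₜ E n) → IsHam (v : E n ≃ₜ E n) → ⁅u, v⁆ ∈ M) ∧
    (∀ W : Set (E n), IsCompact W → (∃ T : HamBar n, Disjoint ((T : E n ≃ₜ E n) '' W) W) →
      (∀ g h : HamBar n, Sup W (g : E n ≃ₜ E n) → Sup W (h : E n ≃ₜ E n) → ⁅g, h⁆ ∈ M) ∧
      ∀ g u : HamBar n, Sup W (g : E n ≃ₜ E n) → IsHam (u : E n ≃ₜ E n) → ⁅g, u⁆ ∈ M) ∧
    (∀ φ : HamBar n, ∃ K : Set (E n), IsCompact K ∧ K ⊆ {p : E n | Q p < 1} ∧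
      Sup K (φ : E n ≃ₜ E n) ∧ ∃ f : ℕ → HamBar n, (∀ k, f k ∈ M) ∧
        (∀ k, IsHam (f k : E n ≃ₜ E n)) ∧ (∀ k, Sup K (f k : E n ≃ₜ E n)) ∧
        TendstoUniformly (fun (k : ℕ) (x : E n) => (f k : E n ≃ₜ E n) x)
          (fun x => (φ : E n ≃ₜ E n) x) atTop) := by
  have hnorm := up_norm (Mn_normal (n := n))
  have hc : ∀ u v : E n ≃ₜ E n, IsHam u → IsHam v → ⁅u, v⁆ ∈ up (Mn n) :=
    fun u v hu hv => Mn_comm hu hv
  refine ⟨Mn n, Mn_normal, Mn_simple hn, fun N hN hne => Mn_le hN hne, fun u v hu hv => ?_,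
    fun W hW hT => ⟨fun g h hg hh => ?_, fun g u hg hu => ?_⟩, fun φ => ?_⟩
  · exact mem_up.1 (hc _ _ hu hv)
  · obtain ⟨T, hT⟩ := hT
    exact mem_up.1 (displ_comm hnorm hc ⟨hW, T, T.2, hT⟩ g.2 h.2 hg hh)
  · obtain ⟨T, hT⟩ := hT
    exact mem_up.1 (displ_comm_ham hnorm hc ⟨hW, T, T.2, hT⟩ g.2 hg hu)
  · obtain ⟨K, hK, hK1, hφ, h1⟩ := dense (hnorm.mono HamS_le) hc φ.2
    refine ⟨K, hK, hK1, hφ, ?_⟩
    have h2 : ∀ k : ℕ, ∃ f : HamBar n, f ∈ Mn n ∧ IsHam (f : E n ≃ₜ E n) ∧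
        Sup K (f : E n ≃ₜ E n) ∧ ∀ x, dist ((φ : E n ≃ₜ E n) x) ((f : E n ≃ₜ E n) x) <
          1 / ((k : ℝ) + 1) := by
      intro k
      obtain ⟨f, hf1, hf2, hf3, hf4⟩ := h1 (1 / ((k : ℝ) + 1)) (by positivity)
      exact ⟨⟨f, ham_mem' hf2⟩, mem_up.1 hf1, hf2, hf3, hf4⟩
    choose f hf1 hf2 hf3 hf4 using h2
    refine ⟨f, hf1, hf2, hf3, ?_⟩
    rw [Metric.tendstoUniformly_iff]
    intro ε hε
    filter_upwards [tendsto_one_div_add_atTop_nhds_zero_nat.eventually (gt_mem_nhds hε)] with k hk x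
    exact (hf4 k x).trans hk

/-- conjugation by a dilation -/
noncomputable def dilHom (s : ℝ) (hs : 0 < s) (hs1 : s ≤ 1) : HamBar n →* HamBar n where
  toFun φ := ⟨(dil s hs : E n ≃ₜ E n) * (φ : E n ≃ₜ E n) * (dil s hs)⁻¹, mem_iff'.2
    (dil_mem Pool.Agent.Y419.HB.dil_ham Pool.Agent.Y309.HB.uc hs hs1 (mem_iff'.1 φ.2))⟩
  map_one' := by
    apply Subtype.ext
    show dil s hs * 1 * (dil s hs)⁻¹ = 1
    rw [mul_one, mul_inv_cancel]
  map_mul' φ ψ := by
    apply Subtype.ext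
    show (dil s hs : E n ≃ₜ E n) * ((φ : E n ≃ₜ E n) * (ψ : E n ≃ₜ E n)) * (dil s hs)⁻¹ =
      (dil s hs * (φ : E n ≃ₜ E n) * (dil s hs)⁻¹) * (dil s hs * (ψ : E n ≃ₜ E n) * (dil s hs)⁻¹)
    group

theorem coe_dilHom {s : ℝ} (hs : 0 < s) (hs1 : s ≤ 1) (φ : HamBar n) :
    (dilHom s hs hs1 φ : E n ≃ₜ E n) = dil s hs * (φ : E n ≃ₜ E n) * (dil s hs)⁻¹ := rfl

theorem dilHom_inj {s : ℝ} (hs : 0 < s) (hs1 : s ≤ 1) :
    Function.Injective (dilHom s hs hs1 : HamBar n →* HamBar n) := by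
  intro φ ψ h
  apply Subtype.ext
  have h1 := congrArg (fun x : HamBar n => (x : E n ≃ₜ E n)) h
  simp only [coe_dilHom] at h1
  exact mul_left_cancel (mul_right_cancel h1)

/-- the support is in a smaller ball -/
theorem sup_ball {φ : E n ≃ₜ E n} (hφ : φ ∈ HamBar n) : ∃ r : ℝ, 0 < r ∧ r < 1 ∧ Sup (cb r) φ := by
  obtain ⟨K, hK, hK1, h1, -⟩ := mem_iff'.1 hφ
  rcases K.eq_empty_or_nonempty with rfl | hne
  · exact ⟨1 / 2, by norm_num, by norm_num, fun x _ => h1 x (notMem_empty x)⟩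
  · obtain ⟨p, hp, hmax⟩ := hK.exists_isMaxOn hne (f := fun x => √(Q x))
      (Real.continuous_sqrt.comp Q_cont).continuousOn
    have hp1 : √(Q p) < 1 := by
      rw [Real.sqrt_lt' one_pos]
      simpa using hK1 hp
    have hp0 : 0 ≤ √(Q p) := Real.sqrt_nonneg _
    refine ⟨(√(Q p) + 1) / 2, by linarith, by linarith, fun x hx => h1 x fun hxK => hx ?_⟩
    rw [mem_cb (by linarith)]
    have : √(Q x) ≤ √(Q p) := hmax hxK
    linarith

theorem dil_sup {s : ℝ} (hs : 0 < s) {r : ℝ} {φ : E n ≃ₜ E n} (h : Sup (cb r) φ) :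
    Sup (cb (s * r)) (dil s hs * φ * (dil s hs)⁻¹) := by
  intro x hx
  rw [mul_apply, mul_apply, dil_inv_apply, dil_apply, h, smul_smul, mul_inv_cancel₀ hs.ne',
    one_smul]
  intro hc
  apply hx
  have h1 : Q (s⁻¹ • x) ≤ r ^ 2 := hc
  rw [Q_smul, inv_pow, inv_mul_le_iff₀ (by positivity)] at h1
  show Q x ≤ (s * r) ^ 2
  rwa [mul_pow]

theorem dil_displ (hn : 0 < n) {s : ℝ} (hs : 0 < s) (hs1 : s ≤ 1 / 2) {φ ψ : HamBar n} :
    ∃ W : Set (E n), Displ W ∧ Sup W (dilHom s hs (by linarith) φ : E n ≃ₜ E n) ∧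
      Sup W (dilHom s hs (by linarith) ψ : E n ≃ₜ E n) := by
  obtain ⟨r, hr0, hr1, h1⟩ := sup_ball φ.2
  obtain ⟨r', hr0', hr1', h2⟩ := sup_ball ψ.2
  have hm : ∀ a b : ℝ, 0 < a → a ≤ b → (cb (s * a) : Set (E n)) ⊆ cb (s * b) := by
    intro a b ha hab x hx
    rw [mem_cb (by positivity)] at hx
    rw [mem_cb (mul_nonneg hs.le (ha.le.trans hab))]
    exact hx.trans (mul_le_mul_of_nonneg_left hab hs.le)
  have h0 : 0 < max r r' := lt_max_of_lt_left hr0
  refine ⟨cb (s * max r r'), displ_cb hn (by positivity) ?_, ?_, ?_⟩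
  · have h3 : max r r' < 1 := max_lt hr1 hr1'
    nlinarith
  · exact (dil_sup hs h1).mono (hm _ _ hr0 (le_max_left _ _))
  · exact (dil_sup hs h2).mono (hm _ _ hr0' (le_max_right _ _))

theorem dil_comm (hn : 0 < n) {s : ℝ} (hs : 0 < s) (hs1 : s ≤ 1 / 2) (φ ψ : HamBar n) :
    ⁅dilHom s hs (by linarith) φ, dilHom s hs (by linarith) ψ⁆ ∈ Mn n := by
  obtain ⟨W, hW, h1, h2⟩ := dil_displ hn hs hs1 (φ := φ) (ψ := ψ)
  exact mem_up.1 (displ_comm (up_norm Mn_normal) (fun u v hu hv => Mn_comm hu hv) hW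
    (dilHom s hs _ φ).2 (dilHom s hs _ ψ).2 h1 h2)

/-- if the group is perfect, the dilates are in the smallest normal subgroup -/
theorem dil_of_perfect (hn : 0 < n) (hp : commutator (HamBar n) = ⊤) {s : ℝ} (hs : 0 < s)
    (hs1 : s ≤ 1 / 2) (φ : HamBar n) : dilHom s hs (by linarith) φ ∈ Mn n := by
  have h1 : (commutator (HamBar n)).map (dilHom s hs (by linarith)) ≤ Mn n := by
    rw [commutator_def, Subgroup.map_commutator, Subgroup.commutator_le]
    rintro _ ⟨a, -, rfl⟩ _ ⟨b, -, rfl⟩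
    exact dil_comm hn hs hs1 a b
  exact h1 ⟨φ, by rw [hp]; exact Subgroup.mem_top φ, rfl⟩

theorem nontriv (hn : 0 < n) : Nontrivial (HamBar n) := by
  by_contra h
  rw [not_nontrivial_iff_subsingleton] at h
  exact Mn_ne hn (Subgroup.eq_bot_of_subsingleton _)

theorem comm_ne (hn : 0 < n) : commutator (HamBar n) ≠ ⊥ := by
  obtain ⟨u, v, hu, hv, hne⟩ := exists_noncomm hn
  intro h
  have h1 : (⁅(⟨u, ham_mem' hu⟩ : HamBar n), ⟨v, ham_mem' hv⟩⁆ : HamBar n) ∈
      commutator (HamBar n) := by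
    rw [commutator_def]
    exact Subgroup.commutator_mem_commutator (Subgroup.mem_top _) (Subgroup.mem_top _)
  rw [h, Subgroup.mem_bot] at h1
  exact hne (congrArg Subtype.val h1)

/-- simplicity -/
theorem simple_iff (hn : 0 < n) : IsSimpleGroup (HamBar n) ↔
    commutator (HamBar n) = ⊤ ∧
      Subgroup.normalClosure (Set.range (dilHom (n := n) (1 / 2) (by norm_num) (by norm_num))) =
        ⊤ := by
  constructor
  · intro h
    constructor
    · rcases h.eq_bot_or_eq_top_of_normal (commutator (HamBar n)) inferInstance with h1 | h1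
      · exact absurd h1 (comm_ne hn)
      · exact h1
    · rcases h.eq_bot_or_eq_top_of_normal (Subgroup.normalClosure
        (Set.range (dilHom (n := n) (1 / 2) (by norm_num) (by norm_num)))) inferInstance with h1 | h1
      · exfalso
        have := nontriv hn
        obtain ⟨φ, hφ⟩ := exists_ne (1 : HamBar n)
        have h2 : dilHom (n := n) (1 / 2) (by norm_num) (by norm_num) φ ∈ Subgroup.normalClosure
          (Set.range (dilHom (n := n) (1 / 2) (by norm_num) (by norm_num))) :=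
          Subgroup.subset_normalClosure ⟨φ, rfl⟩
        rw [h1, Subgroup.mem_bot, ← map_one (dilHom (n := n) (1 / 2) (by norm_num) (by norm_num))]
          at h2
        exact hφ (dilHom_inj _ _ h2)
      · exact h1
  · rintro ⟨h1, h2⟩
    have := nontriv hn
    refine ⟨fun N hN => ?_⟩
    rw [or_iff_not_imp_left]
    intro hne
    rw [eq_top_iff, ← h2]
    have := hN
    apply Subgroup.normalClosure_le_normal
    rintro _ ⟨φ, rfl⟩
    exact Mn_le hN hne (dil_of_perfect hn h1 (by norm_num) le_rfl φ)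

/-- the group generated by conjugates of dilates by diffeomorphisms -/
theorem comm_eq (hn : 0 < n) (hgen : Subgroup.closure {g : HamBar n | ∃ u φ : HamBar n,
    IsHam (u : E n ≃ₜ E n) ∧ g = u * dilHom (1 / 2) (by norm_num) (by norm_num) φ * u⁻¹} = ⊤) :
    Mn n = commutator (HamBar n) := by
  apply le_antisymm
  · exact Mn_le inferInstance (comm_ne hn)
  · have hM := Mn_normal (n := n)
    -- work in the quotient
    set π := QuotientGroup.mk' (Mn n) with hπ
    have h1 : ∀ u φ : HamBar n, IsHam (u : E n ≃ₜ E n) →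
        π (u * dilHom (1 / 2) (by norm_num) (by norm_num) φ * u⁻¹) =
          π (dilHom (1 / 2) (by norm_num) (by norm_num) φ) := by
      intro u φ hu
      obtain ⟨W, hW, h2, -⟩ := dil_displ hn (show (0 : ℝ) < 1 / 2 by norm_num) le_rfl (φ := φ)
        (ψ := φ)
      have h3 : ⁅dilHom (1 / 2) (by norm_num) (by norm_num) φ, u⁆ ∈ Mn n :=
        mem_up.1 (displ_comm_ham (up_norm Mn_normal) (fun u v hu hv => Mn_comm hu hv) hW
          (dilHom (1 / 2) _ _ φ).2 h2 hu)
      have h4 : π ⁅dilHom (1 / 2) (by norm_num) (by norm_num) φ, u⁆ = 1 :=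
        (QuotientGroup.eq_one_iff _).2 h3
      rw [map_commutatorElement, commutatorElement_eq_one_iff_commute] at h4
      rw [map_mul, map_mul, map_inv, ← h4.eq, mul_inv_cancel_right]
    have hS : ∀ a ∈ {g : HamBar n | ∃ u φ : HamBar n, IsHam (u : E n ≃ₜ E n) ∧
        g = u * dilHom (1 / 2) (by norm_num) (by norm_num) φ * u⁻¹},
        ∀ b ∈ {g : HamBar n | ∃ u φ : HamBar n, IsHam (u : E n ≃ₜ E n) ∧
        g = u * dilHom (1 / 2) (by norm_num) (by norm_num) φ * u⁻¹}, Commute (π a) (π b) := by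
      rintro _ ⟨u, φ, hu, rfl⟩ _ ⟨v, ψ, hv, rfl⟩
      rw [h1 u φ hu, h1 v ψ hv]
      have h3 := dil_comm hn (show (0 : ℝ) < 1 / 2 by norm_num) le_rfl φ ψ
      have h4 : π ⁅dilHom (1 / 2) (by norm_num) (by norm_num) φ,
          dilHom (1 / 2) (by norm_num) (by norm_num) ψ⁆ = 1 := (QuotientGroup.eq_one_iff _).2 h3
      rwa [map_commutatorElement, commutatorElement_eq_one_iff_commute] at h4
    have hall : ∀ a b : HamBar n, Commute (π a) (π b) := by
      intro a b
      have ha : a ∈ Subgroup.closure {g : HamBar n | ∃ u φ : HamBar n,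
        IsHam (u : E n ≃ₜ E n) ∧ g = u * dilHom (1 / 2) (by norm_num) (by norm_num) φ * u⁻¹} := by
        rw [hgen]
        exact Subgroup.mem_top a
      have hb : b ∈ Subgroup.closure {g : HamBar n | ∃ u φ : HamBar n,
        IsHam (u : E n ≃ₜ E n) ∧ g = u * dilHom (1 / 2) (by norm_num) (by norm_num) φ * u⁻¹} := by
        rw [hgen]
        exact Subgroup.mem_top b
      refine Subgroup.closure_induction (p := fun a _ => Commute (π a) (π b)) ?_ ?_ ?_ ?_ ha
      · intro x hx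
        refine Subgroup.closure_induction (p := fun b _ => Commute (π x) (π b)) (hS x hx) ?_ ?_ ?_
          hb
        · rw [map_one]
          exact Commute.one_right _
        · intro y z _ _ hy hz
          rw [map_mul]
          exact hy.mul_right hz
        · intro y _ hy
          rw [map_inv]
          exact hy.inv_right
      · rw [map_one]
        exact Commute.one_left _
      · intro y z _ _ hy hz
        rw [map_mul]
        exact hy.mul_left hz
      · intro y _ hy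
        rw [map_inv]
        exact hy.inv_left
    rw [commutator_def, Subgroup.commutator_le]
    intro a _ b _
    have h2 := hall a b
    rw [← commutatorElement_eq_one_iff_commute, ← map_commutatorElement] at h2
    exact (QuotientGroup.eq_one_iff _).1 h2

end Pool.Agent.X277.Ham
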