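import Pool.Agent.X277.Ham.NoHom

/-!
# Homogeneous quasimorphisms with a gap on completely metrizable groups
-/

set_option autoImplicit false

open Set Filter Topology Function
open scoped NNReal

namespace Pool.Agent.X277.Ham

/-- a homogeneous quasimorphism with defect at most `D` -/
structure IsHQ {G : Type*} [Group G] (D : ℝ) (μ : G → ℝ) : Prop where
  bound : ∀ x y, |μ (x * y) - μ x - μ y| ≤ D
  pow : ∀ x (m : ℕ), μ (x ^ m) = m * μ x

theorem IsHQ.one {G : Type*} [Group G] {D : ℝ} {μ : G → ℝ} (h : IsHQ D μ) : μ 1 = 0 := by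
  have := h.pow 1 0
  simpa using this

theorem IsHQ.nonneg {G : Type*} [Group G] {D : ℝ} {μ : G → ℝ} (h : IsHQ D μ) : 0 ≤ D :=
  (abs_nonneg _).trans (h.bound 1 1)

/-- the arithmetic of Dudley's argument -/
theorem arith' {D δ : ℝ} (a y : ℕ → ℝ) (m : ℕ → ℕ)
    (ha : ∀ j, D < |a j|) (hg : ∀ j, y j ≠ 0 → δ ≤ |y j|)
    (hm : ∀ j : ℕ, (j : ℝ) + 2 + ∑ i ∈ Finset.range (j + 1), (|a i| + D) ≤ m j * δ)
    (hm1 : ∀ j, 1 ≤ m j)
    (hy : ∀ j, |y j - a j - m j * y (j + 1)| ≤ D) : False := by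
  have key : ∀ k, y (k + 1) ≠ 0 → ∀ l j, j + l = k →
      (k : ℝ) + 2 + ∑ i ∈ Finset.range j, (|a i| + D) ≤ |y j| := by
    intro k hk l
    induction l with
    | zero =>
      rintro j rfl
      rw [add_zero] at *
      have h1 := hy j
      have h2 := hm j
      rw [Finset.sum_range_succ] at h2
      have h3 : (m j : ℝ) * δ ≤ |(m j : ℝ) * y (j + 1)| := by
        rw [abs_mul, Nat.abs_cast]
        exact mul_le_mul_of_nonneg_left (hg _ hk) (Nat.cast_nonneg _)
      have h4 : |(m j : ℝ) * y (j + 1)| ≤ |y j| + |a j| + D := by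
        have e1 : (m j : ℝ) * y (j + 1) = (y j - a j) - (y j - a j - m j * y (j + 1)) := by ring
        rw [e1]
        exact (abs_sub _ _).trans (add_le_add (abs_sub _ _) h1)
      linarith
    | succ l ih =>
      intro j hj
      have h0 := ih (j + 1) (by omega)
      rw [Finset.sum_range_succ] at h0
      have h1 := hy j
      have h3 : |y (j + 1)| ≤ |(m j : ℝ) * y (j + 1)| := by
        rw [abs_mul, Nat.abs_cast]
        have h7 : (1 : ℝ) ≤ m j := by exact_mod_cast hm1 j
        have : 0 ≤ |y (j + 1)| := abs_nonneg _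
        nlinarith
      have h4 : |(m j : ℝ) * y (j + 1)| ≤ |y j| + |a j| + D := by
        have e1 : (m j : ℝ) * y (j + 1) = (y j - a j) - (y j - a j - m j * y (j + 1)) := by ring
        rw [e1]
        exact (abs_sub _ _).trans (add_le_add (abs_sub _ _) h1)
      linarith
  have h1 : ∀ k : ℕ, y (k + 1) ≠ 0 → (k : ℝ) + 2 ≤ |y 0| := by
    intro k hk
    have := key k hk k 0 (by omega)
    simpa using this
  obtain ⟨N, hN⟩ := exists_nat_gt (|y 0|)
  by_cases h2 : y (N + 1 + 1) = 0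
  · have h3 := hy (N + 1)
    rw [h2, mul_zero, sub_zero] at h3
    have h5 : y (N + 1) ≠ 0 := by
      intro h
      rw [h, zero_sub, abs_neg] at h3
      exact absurd h3 (not_le.2 (ha _))
    have h4 := h1 N h5
    linarith
  · have := h1 (N + 1) h2
    push_cast at this
    linarith

section

variable {T : Type*} [Group T] [MetricSpace T] [CompleteSpace T] [IsTopologicalGroup T]

/-- near the identity the values are at most `D` -/
theorem small_of_gap {D δ : ℝ} (hδ : 0 < δ) {μ : T → ℝ} (hμ : IsHQ D μ)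
    (hg : ∀ x, μ x ≠ 0 → δ ≤ |μ x|) : ∀ᶠ ε in 𝓝 (1 : T), |μ ε| ≤ D := by
  by_contra hno
  have hnot : ∀ U ∈ 𝓝 (1 : T), ∃ ε ∈ U, D < |μ ε| := by
    intro U hU
    by_contra hcon
    push Not at hcon
    exact hno (Filter.mem_of_superset hU fun x hx => hcon x hx)
  have : Inhabited (T × ℕ) := ⟨(1, 0)⟩
  obtain ⟨f, hf⟩ := exists_hist (α := T × ℕ)
    (fun k f a => D < |μ a.1| ∧
      (∀ j ≤ k, dist (comp f j (k - j) a.1) (comp f j (k - j) 1) < (1 / 2) ^ k) ∧
      (k : ℝ) + 2 + (∑ i ∈ Finset.range k, (|μ (f i).1| + D) + (|μ a.1| + D)) ≤ a.2 * δ ∧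
      1 ≤ a.2) (by
      intro k f
      have h1 : ∀ j, ∀ᶠ ε in 𝓝 (1 : T),
          dist (comp f j (k - j) ε) (comp f j (k - j) 1) < (1 / 2) ^ k := by
        intro j
        have h2 : Continuous fun ε => dist (comp f j (k - j) ε) (comp f j (k - j) 1) :=
          (comp_cont f j (k - j)).dist continuous_const
        exact h2.continuousAt.eventually_lt continuousAt_const (by
          rw [dist_self]
          positivity)
      have h3 : ∀ᶠ ε in 𝓝 (1 : T), ∀ j ∈ Finset.range (k + 1),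
          dist (comp f j (k - j) ε) (comp f j (k - j) 1) < (1 / 2) ^ k :=
        (Filter.eventually_all_finset _).2 fun j _ => h1 j
      obtain ⟨ε, hε1, hε2⟩ := hnot _ h3
      obtain ⟨M, hM⟩ := exists_nat_gt
        (((k : ℝ) + 2 + (∑ i ∈ Finset.range k, (|μ (f i).1| + D) + (|μ ε| + D))) / δ)
      refine ⟨(ε, M + 1), hε2, fun j hj => hε1 j (Finset.mem_range.2 (by omega)), ?_, by
        show 1 ≤ M + 1
        omega⟩
      rw [div_lt_iff₀ hδ] at hM
      show (k : ℝ) + 2 + (∑ i ∈ Finset.range k, (|μ (f i).1| + D) + (|μ ε| + D)) ≤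
        ((M + 1 : ℕ) : ℝ) * δ
      push_cast
      nlinarith) (by
      rintro k f g a hfg ⟨h1, h2, h3, h4⟩
      refine ⟨h1, fun j hj => ?_, ?_, h4⟩
      · rw [← comp_congr (f := f) (g := g) j (k - j) fun i hi => hfg i (by omega)]
        exact h2 j hj
      · have : ∑ i ∈ Finset.range k, (|μ (g i).1| + D) =
            ∑ i ∈ Finset.range k, (|μ (f i).1| + D) := by
          refine Finset.sum_congr rfl fun i hi => ?_
          rw [hfg i (Finset.mem_range.1 hi)]
        rw [this]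
        exact h3)
  have hY : ∀ j, ∃ x, Tendsto (fun l => comp f j l 1) atTop (𝓝 x) := by
    intro j
    apply cauchySeq_tendsto_of_complete
    refine cauchySeq_of_le_geometric (1 / 2) 1 (by norm_num) fun l => ?_
    have h1 := (hf (j + l)).2.1 j (by omega)
    rw [Nat.add_sub_cancel_left] at h1
    have h2 : comp f j (l + 1) 1 = comp f j l (f (j + l)).1 := by
      show comp f j l ((f (j + l)).1 * 1 ^ (f (j + l)).2) = _
      rw [one_pow, mul_one]
    rw [h2, dist_comm, one_mul]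
    refine h1.le.trans ?_
    exact pow_le_pow_of_le_one (by norm_num) (by norm_num) (by omega)
  choose x hx using hY
  have hrec : ∀ j, x j = (f j).1 * (x (j + 1)) ^ (f j).2 := by
    intro j
    have h1 : Tendsto (fun l => comp f j (l + 1) 1) atTop (𝓝 (x j)) :=
      (hx j).comp (tendsto_add_atTop_nat 1)
    have h2 : Tendsto (fun l => comp f j (l + 1) 1) atTop
        (𝓝 ((f j).1 * (x (j + 1)) ^ (f j).2)) := by
      simp only [comp_left]
      exact ((hx (j + 1)).pow _).const_mul _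
    exact tendsto_nhds_unique h1 h2
  refine arith' (D := D) (δ := δ) (fun j => μ (f j).1) (fun j => μ (x j)) (fun j => (f j).2) ?_ ?_ ?_ ?_ ?_
  · exact fun j => (hf j).1
  · exact fun j => hg (x j)
  · intro j
    have := (hf j).2.2.1
    rw [Finset.sum_range_succ]
    exact this
  · exact fun j => (hf j).2.2.2
  · intro j
    have := hμ.bound (f j).1 ((x (j + 1)) ^ (f j).2)
    rwa [← hrec j, hμ.pow] at this

/-- homogeneous quasimorphisms with a gap vanish near the identity -/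
theorem zero_of_gap {D δ : ℝ} (hδ : 0 < δ) {μ : T → ℝ} (hμ : IsHQ D μ)
    (hg : ∀ x, μ x ≠ 0 → δ ≤ |μ x|) : ∀ᶠ ε in 𝓝 (1 : T), μ ε = 0 := by
  obtain ⟨m, hm⟩ := exists_nat_gt (D / δ)
  rw [div_lt_iff₀ hδ] at hm
  have h1 := small_of_gap hδ hμ hg
  have h2 : Tendsto (fun ε : T => ε ^ m) (𝓝 1) (𝓝 1) := by
    have := (continuous_pow m).tendsto (1 : T)
    rwa [one_pow] at this
  filter_upwards [h2.eventually h1] with ε h3
  by_contra hne
  rw [hμ.pow, abs_mul, Nat.abs_cast] at h3
  have h4 : (m : ℝ) * δ ≤ m * |μ ε| := mul_le_mul_of_nonneg_left (hg _ hne) (Nat.cast_nonneg _)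
  linarith

/-- homogeneous quasimorphisms with a gap are continuous -/
theorem cont_of_gap {D δ : ℝ} (hδ : 0 < δ) {μ : T → ℝ} (hμ : IsHQ D μ)
    (hg : ∀ x, μ x ≠ 0 → δ ≤ |μ x|) : Continuous μ := by
  rw [continuous_iff_continuousAt]
  intro g
  rw [Metric.continuousAt_iff']
  intro ε hε
  obtain ⟨m, hm⟩ := exists_nat_gt (D / ε)
  rw [div_lt_iff₀ hε] at hm
  have hm0 : 0 < (m : ℝ) := by
    by_contra h
    have h0 := hμ.nonneg
    push Not at h
    nlinarith
  have h1 := zero_of_gap hδ hμ hg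
  have h2 : Tendsto (fun x : T => x ^ m * (g ^ m)⁻¹) (𝓝 g) (𝓝 1) := by
    have h3 : Continuous fun x : T => x ^ m * (g ^ m)⁻¹ := (continuous_pow m).mul continuous_const
    have := h3.tendsto g
    rwa [mul_inv_cancel] at this
  filter_upwards [h2.eventually h1] with x h3
  have h4 := hμ.bound (x ^ m * (g ^ m)⁻¹) (g ^ m)
  rw [inv_mul_cancel_right, h3, sub_zero, hμ.pow, hμ.pow, ← mul_sub, abs_mul, Nat.abs_cast] at h4
  rw [Real.dist_eq]
  by_contra hcon
  push Not at hcon
  have h5 : (m : ℝ) * ε ≤ m * |μ x - μ g| := mul_le_mul_of_nonneg_left hcon hm0.le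
  linarith

end

open Pool.Agent.Y453.HB

variable {n : ℕ}

/-- homogeneous quasimorphisms with a gap on the group of Hamiltonian homeomorphisms vanish -/
theorem qm_gap {D δ : ℝ} (hδ : 0 < δ) {μ : HamBar n → ℝ} (hμ : IsHQ D μ)
    (hg : ∀ x, μ x ≠ 0 → δ ≤ |μ x|) (φ : HamBar n) : μ φ = 0 := by
  have hres : ∀ (K : Set (E n)) (hK : IsCompact K) (hK1 : K ⊆ {p : E n | Q p < 1}),
      Continuous fun g : TK K hK => μ (incl hK hK1 g) := by
    intro K hK hK1
    refine cont_of_gap (D := D) hδ ⟨fun x y => ?_, fun x m => ?_⟩ fun x => hg _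
    · rw [map_mul]
      exact hμ.bound _ _
    · rw [map_pow]
      exact hμ.pow _ _
  have step : ∀ (u : E n ≃ₜ E n) (hu : IsHam u), μ ⟨u, ham_mem' hu⟩ = 0 := by
    intro u hu
    obtain ⟨H, K, hK, hK1, hH, h1⟩ := exists_good hu
    obtain ⟨C, ψ, hψ⟩ := exists_iso hK hH
    obtain ⟨g, hg1, hg2⟩ := path_cont hK hK1 hH hψ
    have h2 : Continuous fun t => μ (incl hK hK1 (g t)) := (hres K hK hK1).comp hg1
    have hcl : IsClopen {t : ℝ | μ (incl hK hK1 (g t)) = 0} := by
      refine ⟨isClosed_eq h2 continuous_const, ?_⟩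
      have : {t : ℝ | μ (incl hK hK1 (g t)) = 0} =
          {t : ℝ | |μ (incl hK hK1 (g t))| < δ} := by
        ext t
        constructor
        · intro h
          rw [mem_ofPred_eq] at h ⊢
          rwa [h, abs_zero]
        · intro h
          rw [mem_ofPred_eq] at h ⊢
          by_contra hne
          exact absurd (hg _ hne) (not_le.2 h)
      rw [this]
      exact isOpen_lt (continuous_abs.comp h2) continuous_const
    have h0 : (0 : ℝ) ∈ {t : ℝ | μ (incl hK hK1 (g t)) = 0} := by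
      show μ (incl hK hK1 (g 0)) = 0
      have : g 0 = 1 := Subtype.ext (by rw [hg2, hψ.zero]; rfl)
      rw [this, map_one, hμ.one]
    have h3 : (1 : ℝ) ∈ {t : ℝ | μ (incl hK hK1 (g t)) = 0} := by
      rw [hcl.eq_univ ⟨0, h0⟩]
      exact mem_univ _
    have h4 : incl hK hK1 (g 1) = ⟨u, ham_mem' hu⟩ := by
      apply Subtype.ext
      show (g 1 : E n ≃ₜ E n) = u
      rw [hg2, h1 C ψ hψ]
    have h5 : μ (incl hK hK1 (g 1)) = 0 := h3
    rwa [h4] at h5
  obtain ⟨K, hK, hK1, h1, u, hu1, hu2, hu3⟩ := mem_iff'.1 φ.2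
  have hclosed : IsClosed {g : TK K hK | μ (incl hK hK1 g) = 0} :=
    isClosed_eq (hres K hK hK1) continuous_const
  set v : ℕ → TK K hK := fun k => ⟨u k, hu1 k, fun _ => u k, fun _ => hu1 k, fun _ => hu2 k,
    unif_const _⟩ with hv
  set f : TK K hK := ⟨φ, h1, u, hu1, hu2, hu3⟩ with hf
  have h2 : Tendsto v atTop (𝓝 f) := tendsto_of hu3
  have h4 := hclosed.mem_of_tendsto h2 (Eventually.of_forall fun k => step (u k) (hu2 k))
  exact h4

end Pool.Agent.X277.Ham
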