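import Pool.Agent.X277.Ham.Frag

/-!
# Rotations about points of the ball, and transitivity
-/

set_option autoImplicit false

open Set Filter Topology Function
open scoped NNReal

namespace Pool.Agent.X277.Ham

open Pool.Agent.Y453.HB Pool.Agent.Y945.HB

/-- a rotation by the angle `π` about any point, cut off -/
theorem rot' {n : ℕ} (a : E n) {r d : ℝ} (hr : 0 < r) (hd : 0 ≤ d) (hQa : Q a = d ^ 2)
    (hdr : d + r < 1) : ∃ R : E n ≃ₜ E n, IsHam R ∧
      ∀ x, √(Q (x - (1 / 2 : ℝ) • a)) ≤ r + d / 2 → R x = a - x := by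
  obtain ⟨htri, -, hsm, -, hcpt, hQ0, -⟩ := Pool.Agent.Y453.HB.tri n
  set m : E n := (1 / 2 : ℝ) • a with hm
  have hQm : Q m = (d / 2) ^ 2 := by
    rw [hm, hsm, hQa]; ring
  have hQm' : Q (-m) = (d / 2) ^ 2 := by
    have h1 : -m = (-1 : ℝ) • m := by simp
    rw [h1, hsm, hQm]; ring
  -- the radii
  set c : ℝ := r + d / 2 with hc
  set ρ : ℝ := (c + (1 - d / 2)) / 2 with hρ
  have hc0 : 0 < c := by positivity
  have hcρ : c < ρ := by rw [hρ]; linarith
  have hρ1 : ρ + d / 2 < 1 := by rw [hρ]; linarith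
  have hρ0 : 0 < ρ := hc0.trans hcρ
  set q₂ : ℝ := ρ ^ 2 with hq₂
  set q₁ : ℝ := (c ^ 2 + ρ ^ 2) / 2 with hq₁
  have hcc : c ^ 2 < ρ ^ 2 := by nlinarith
  have h1 : c ^ 2 < q₁ := by rw [hq₁]; linarith
  have h2 : q₁ < q₂ := by rw [hq₁, hq₂]; linarith
  have h21 : 0 < q₂ - q₁ := by linarith
  -- the function
  set χ : ℝ → ℝ := fun q => Real.smoothTransition ((q₂ - q) / (q₂ - q₁)) with hχ
  set h : ℝ → ℝ := fun q => Real.pi / 2 * q * χ q with hh
  have hχs : ContDiff ℝ ((⊤ : ℕ∞) : WithTop ℕ∞) χ := by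
    rw [hχ]
    exact Real.smoothTransition.contDiff.comp
      ((contDiff_const.sub contDiff_id).div_const (q₂ - q₁))
  have hhs : ContDiff ℝ ((⊤ : ℕ∞) : WithTop ℕ∞) h := by
    rw [hh]
    exact (contDiff_const.mul contDiff_id).mul hχs
  have hhd : Differentiable ℝ h := hhs.differentiable (by simp)
  have hdc : Continuous (deriv h) := hhs.continuous_deriv (by
    exact_mod_cast le_top)
  have hgc : Continuous (fun q => 2 * deriv h q) := hdc.const_mul 2
  have hder : ∀ q, q < q₁ → 2 * deriv h q = Real.pi := by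
    intro q hq
    have h3 : h =ᶠ[𝓝 q] fun q => Real.pi / 2 * q := by
      filter_upwards [Iio_mem_nhds hq] with y hy
      have h4 : χ y = 1 := by
        rw [hχ]
        apply Real.smoothTransition.one_of_one_le
        rw [le_div_iff₀ h21]
        have : y < q₁ := hy
        linarith
      show Real.pi / 2 * y * χ y = _
      rw [h4, mul_one]
    rw [h3.deriv_eq]
    have h5 : deriv (fun q : ℝ => Real.pi / 2 * q) q = Real.pi / 2 := by
      simp
    rw [h5]; ring
  refine ⟨TW (fun q => 2 * deriv h q) hgc m, ?_, ?_⟩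
  · refine ⟨fun _ y => h (Q (y - m)), ?_, ⟨{x | Q (x - m) ≤ q₂}, ?_, ?_, ?_⟩,
      fun t x => m + rt (2 * deriv h (Q (x - m)) * t) (x - m), ?_, ?_, ?_⟩
    · exact hhs.comp (Q_smooth.comp (contDiff_snd.sub contDiff_const))
    · have h3 : {x : E n | Q (x - m) ≤ q₂} = (fun y => y + m) '' {x : E n | Q x ≤ q₂} := by
        ext x
        constructor
        · intro hx
          exact ⟨x - m, hx, sub_add_cancel x m⟩
        · rintro ⟨y, hy, rfl⟩
          show Q (y + m - m) ≤ q₂
          rw [add_sub_cancel_right]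
          exact hy
      rw [h3]
      exact (hcpt q₂).image (continuous_id.add continuous_const)
    · intro x hx
      have hx' : Q (x - m) ≤ ρ ^ 2 := hx
      have h3 := htri (x - m) m
      rw [sub_add_cancel, hQm, Real.sqrt_sq (by positivity)] at h3
      have h4 : √(Q (x - m)) ≤ ρ := by
        rw [← Real.sqrt_sq hρ0.le]
        exact Real.sqrt_le_sqrt hx'
      have h5 : √(Q x) < 1 := by linarith
      show Q x < 1
      rwa [Real.sqrt_lt' one_pos, one_pow] at h5
    · intro t x hx
      have hx' : q₂ < Q (x - m) := not_le.1 hx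
      show Real.pi / 2 * Q (x - m) * χ (Q (x - m)) = 0
      have h3 : χ (Q (x - m)) = 0 := by
        rw [hχ]
        apply Real.smoothTransition.zero_of_nonpos
        apply div_nonpos_of_nonpos_of_nonneg _ h21.le
        linarith
      rw [h3, mul_zero]
    · intro x
      simp only [mul_zero, rt_zero, add_sub_cancel]
    · intro t x
      rw [XH_eq hhd m]
      simp only [add_sub_cancel_left, Q_rt]
      exact flow_deriv _ m (x - m) t
    · intro x
      simp only [mul_one]
      rfl
  · intro x hx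
    have h5 : √(Q (x - m)) ≤ c := hx
    have h6 : Q (x - m) ≤ c ^ 2 := by
      rw [← Real.sq_sqrt (hQ0 (x - m))]
      exact pow_le_pow_left₀ (Real.sqrt_nonneg _) h5 2
    show m + rt (2 * deriv h (Q (x - m))) (x - m) = a - x
    rw [hder _ (h6.trans_lt h1), rt_pi]
    have h7 : m + m = a := by
      rw [hm, ← add_smul]
      norm_num
    rw [← h7]
    abel



end Pool.Agent.X277.Ham
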