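import Pool.Agent.X277.Ham.Iso
import Pool.Agent.X277.Ham.Dudley

/-!
# The complete groups of Hamiltonian homeomorphisms with support in a compact set
-/

set_option autoImplicit false

open Set Filter Topology Function
open scoped NNReal BoundedContinuousFunction

namespace Pool.Agent.X277.Ham

open Pool.Agent.Y453.HB

variable {n : ℕ}

/-- uniform limits of Hamiltonian diffeomorphisms supported in `K` -/
def lim (K : Set (E n)) : Set (E n ≃ₜ E n) :=
  {φ | (∀ x, x ∉ K → φ x = x) ∧ ∃ u : ℕ → (E n ≃ₜ E n), (∀ k, ∀ x, x ∉ K → u k x = x) ∧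
    (∀ k, IsHam (u k)) ∧ TendstoUniformly (fun (k : ℕ) (x : E n) => u k x) (fun x => φ x) atTop}

theorem lim_mem_hamBar {K : Set (E n)} (hK : IsCompact K) (hK1 : K ⊆ {p : E n | Q p < 1})
    {φ : E n ≃ₜ E n} (h : φ ∈ lim K) : φ ∈ HamBar n :=
  Subgroup.subset_closure ⟨K, hK, hK1, h.1, h.2⟩

theorem ham_mul {u v : E n ≃ₜ E n} (hu : IsHam u) (hv : IsHam v) : IsHam (u * v) :=
  Pool.Agent.Y907.HB.mul n u v hu hv

theorem ham_inv {u : E n ≃ₜ E n} (hu : IsHam u) : IsHam u⁻¹ :=
  (Pool.Agent.Y510.HB.inv n).2 u hu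

theorem ham_one : IsHam (1 : E n ≃ₜ E n) := (Pool.Agent.Y510.HB.inv n).1

theorem unif_const (φ : E n ≃ₜ E n) :
    TendstoUniformly (fun (_ : ℕ) (x : E n) => φ x) (fun x => φ x) atTop := by
  rw [Metric.tendstoUniformly_iff]
  intro ε hε
  exact Eventually.of_forall fun _ x => by rw [dist_self]; exact hε

/-- the group of uniform limits of Hamiltonian diffeomorphisms supported in `K` -/
def TK (K : Set (E n)) (hK : IsCompact K) : Subgroup (E n ≃ₜ E n) where
  carrier := lim K
  one_mem' := ⟨fun _ _ => rfl, fun _ => 1, fun _ _ _ => rfl, fun _ => ham_one, unif_const 1⟩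
  mul_mem' := by
    rintro φ ψ ⟨h1, u, hu1, hu2, hu3⟩ ⟨h2, v, hv1, hv2, hv3⟩
    refine ⟨fun x hx => ?_, fun k => u k * v k, fun k x hx => ?_, fun k => ham_mul (hu2 k) (hv2 k),
      ?_⟩
    · rw [mul_apply, h2 x hx, h1 x hx]
    · rw [mul_apply, hv1 k x hx, hu1 k x hx]
    · have hU := Pool.Agent.Y309.HB.uc (n := n)
      exact (hU.1 _ _ _ _ (uconv_of Pool.Agent.Y309.HB.uc hK h1 hu3)
        (uconv_of Pool.Agent.Y309.HB.uc hK h2 hv3)).1
  inv_mem' := by
    rintro φ ⟨h1, u, hu1, hu2, hu3⟩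
    refine ⟨fun x hx => ?_, fun k => (u k)⁻¹, fun k x hx => ?_, fun k => ham_inv (hu2 k), ?_⟩
    · have h := inv_apply_self φ x
      rwa [h1 x hx] at h
    · have h := inv_apply_self (u k) x
      rwa [hu1 k x hx] at h
    · have hU := Pool.Agent.Y309.HB.uc (n := n)
      exact (hU.2.1 _ _ (uconv_of Pool.Agent.Y309.HB.uc hK h1 hu3)).1

variable {K : Set (E n)} {hK : IsCompact K}

theorem mem_TK {φ : E n ≃ₜ E n} : φ ∈ TK K hK ↔ φ ∈ lim K := Iff.rfl

theorem TK.fix (φ : TK K hK) {x : E n} (hx : x ∉ K) : (φ : E n ≃ₜ E n) x = x := φ.2.1 x hx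

theorem disp_bound (φ : TK K hK) : ∃ C, ∀ x, ‖(φ : E n ≃ₜ E n) x - x‖ ≤ C := by
  have h1 : Continuous fun x : E n => (φ : E n ≃ₜ E n) x - x :=
    (φ : E n ≃ₜ E n).continuous.sub continuous_id
  have h2 : HasCompactSupport fun x : E n => (φ : E n ≃ₜ E n) x - x :=
    HasCompactSupport.intro hK fun x hx => by rw [φ.2.1 x hx, sub_self]
  exact h2.exists_bound_of_continuous h1

/-- displacement function -/
noncomputable def disp (φ : TK K hK) : E n →ᵇ E n :=
  BoundedContinuousFunction.ofNormedAddCommGroup (fun x => (φ : E n ≃ₜ E n) x - x)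
    ((φ : E n ≃ₜ E n).continuous.sub continuous_id) (disp_bound φ).choose (disp_bound φ).choose_spec

@[simp] theorem disp_apply (φ : TK K hK) (x : E n) : disp φ x = (φ : E n ≃ₜ E n) x - x := rfl

/-- a homeomorphism and its inverse -/
noncomputable def both (φ : TK K hK) : (E n →ᵇ E n) × (E n →ᵇ E n) := (disp φ, disp φ⁻¹)

theorem both_inj : Function.Injective (both : TK K hK → _) := by
  intro φ ψ h
  have h1 : disp φ = disp ψ := congrArg Prod.fst h
  refine Subtype.ext (Homeomorph.ext fun x => ?_)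
  have h2 := congrArg (fun f : E n →ᵇ E n => f x) h1
  simp only [disp_apply] at h2
  exact sub_left_injective h2

noncomputable instance : MetricSpace (TK K hK) := MetricSpace.induced both both_inj inferInstance

theorem disp_tendsto {u : ℕ → TK K hK} {g : TK K hK} :
    Tendsto (fun k => disp (u k)) atTop (𝓝 (disp g)) ↔
      TendstoUniformly (fun k x => (u k : E n ≃ₜ E n) x) (fun x => (g : E n ≃ₜ E n) x) atTop := by
  rw [BoundedContinuousFunction.tendsto_iff_tendstoUniformly, Metric.tendstoUniformly_iff,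
    Metric.tendstoUniformly_iff]
  simp only [disp_apply, dist_sub_right]

theorem tendsto_iff' {u : ℕ → TK K hK} {g : TK K hK} :
    Tendsto u atTop (𝓝 g) ↔
      TendstoUniformly (fun k x => (u k : E n ≃ₜ E n) x) (fun x => (g : E n ≃ₜ E n) x) atTop ∧
      TendstoUniformly (fun k x => ((u k)⁻¹ : TK K hK).1 x) (fun x => (g⁻¹ : TK K hK).1 x)
        atTop := by
  have h1 : Topology.IsInducing (both : TK K hK → _) := ⟨rfl⟩
  rw [h1.tendsto_nhds_iff, ← disp_tendsto, ← disp_tendsto]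
  show Tendsto (fun k => (disp (u k), disp (u k)⁻¹)) atTop (𝓝 (disp g, disp g⁻¹)) ↔ _
  rw [nhds_prod_eq]
  exact tendsto_prod_iff'

theorem uconv_iff {u : ℕ → TK K hK} {g : TK K hK} :
    Tendsto u atTop (𝓝 g) ↔ UConv (fun k => (u k : E n ≃ₜ E n)) (g : E n ≃ₜ E n) := by
  rw [tendsto_iff']
  constructor
  · intro h
    exact uconv_of Pool.Agent.Y309.HB.uc hK g.2.1 h.1
  · intro h
    exact ⟨h.1, (Pool.Agent.Y309.HB.uc_inv h).1⟩

theorem tendsto_of {u : ℕ → TK K hK} {g : TK K hK}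
    (h : TendstoUniformly (fun k x => (u k : E n ≃ₜ E n) x) (fun x => (g : E n ≃ₜ E n) x) atTop) :
    Tendsto u atTop (𝓝 g) :=
  uconv_iff.2 (uconv_of Pool.Agent.Y309.HB.uc hK g.2.1 h)

instance : IsTopologicalGroup (TK K hK) where
  continuous_mul := by
    apply SeqContinuous.continuous
    intro z a hz
    have h1 : Tendsto (fun k => (z k).1) atTop (𝓝 a.1) := (continuous_fst.tendsto a).comp hz
    have h2 : Tendsto (fun k => (z k).2) atTop (𝓝 a.2) := (continuous_snd.tendsto a).comp hz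
    show Tendsto (fun k => (z k).1 * (z k).2) atTop (𝓝 (a.1 * a.2))
    rw [uconv_iff] at h1 h2 ⊢
    exact Pool.Agent.Y309.HB.uc_mul h1 h2
  continuous_inv := by
    apply SeqContinuous.continuous
    intro z a hz
    show Tendsto (fun k => (z k)⁻¹) atTop (𝓝 a⁻¹)
    rw [uconv_iff] at hz ⊢
    exact Pool.Agent.Y309.HB.uc_inv hz

theorem lim_of_lim {φ : E n ≃ₜ E n} {u : ℕ → (E n ≃ₜ E n)} (hu : ∀ k, u k ∈ lim K)
    (h0 : ∀ x, x ∉ K → φ x = x)
    (h : TendstoUniformly (fun (k : ℕ) (x : E n) => u k x) (fun x => φ x) atTop) : φ ∈ lim K := by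
  refine ⟨h0, ?_⟩
  have h1 : ∀ k : ℕ, ∃ v : E n ≃ₜ E n, (∀ x, x ∉ K → v x = x) ∧ IsHam v ∧
      ∀ x, dist (u k x) (v x) < 1 / ((k : ℝ) + 1) := by
    intro k
    obtain ⟨-, v, hv1, hv2, hv3⟩ := hu k
    rw [Metric.tendstoUniformly_iff] at hv3
    obtain ⟨j, hj⟩ := (hv3 (1 / ((k : ℝ) + 1)) (by positivity)).exists
    exact ⟨v j, hv1 j, hv2 j, hj⟩
  choose v hv1 hv2 hv3 using h1
  refine ⟨v, hv1, hv2, ?_⟩
  rw [Metric.tendstoUniformly_iff] at h ⊢
  intro ε hε
  have h2 : ∀ᶠ k : ℕ in atTop, 1 / ((k : ℝ) + 1) < ε / 2 :=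
    tendsto_one_div_add_atTop_nhds_zero_nat.eventually (gt_mem_nhds (half_pos hε))
  filter_upwards [h (ε / 2) (half_pos hε), h2] with k h3 h4 x
  calc dist (φ x) (v k x) ≤ dist (φ x) (u k x) + dist (u k x) (v k x) := dist_triangle _ _ _
    _ < ε / 2 + ε / 2 := add_lt_add (h3 x) ((hv3 k x).trans h4)
    _ = ε := add_halves ε

instance : CompleteSpace (TK K hK) := by
  apply Metric.complete_of_cauchySeq_tendsto
  intro u hu
  have h1 : CauchySeq fun k => both (u k) := by
    have : UniformContinuous (both : TK K hK → _) := by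
      have h2 : Isometry (both : TK K hK → _) := by
        intro x y
        rfl
      exact h2.uniformContinuous
    exact this.comp_cauchySeq hu
  obtain ⟨⟨A, B⟩, hAB⟩ := cauchySeq_tendsto_of_complete h1
  have hA : Tendsto (fun k => disp (u k)) atTop (𝓝 A) :=
    (continuous_fst.tendsto (A, B)).comp hAB
  have hB : Tendsto (fun k => disp (u k)⁻¹) atTop (𝓝 B) :=
    (continuous_snd.tendsto (A, B)).comp hAB
  rw [BoundedContinuousFunction.tendsto_iff_tendstoUniformly] at hA hB
  have hA' : TendstoUniformly (fun k x => (u k : E n ≃ₜ E n) x) (fun x => A x + x) atTop := by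
    rw [Metric.tendstoUniformly_iff] at hA ⊢
    intro ε hε
    filter_upwards [hA ε hε] with k hk x
    have := hk x
    rw [disp_apply] at this
    rwa [← dist_sub_right _ _ x, add_sub_cancel_right]
  have hB' : TendstoUniformly (fun k x => ((u k)⁻¹ : TK K hK).1 x) (fun x => B x + x) atTop := by
    rw [Metric.tendstoUniformly_iff] at hB ⊢
    intro ε hε
    filter_upwards [hB ε hε] with k hk x
    have := hk x
    rw [disp_apply] at this
    rwa [← dist_sub_right _ _ x, add_sub_cancel_right]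
  have hAc : Continuous fun x => A x + x := A.continuous.add continuous_id
  have hBc : Continuous fun x => B x + x := B.continuous.add continuous_id
  have hl : ∀ x, B (A x + x) + (A x + x) = x := by
    intro x
    have h2 : Tendsto (fun k => (u k : E n ≃ₜ E n) x) atTop (𝓝 (A x + x)) :=
      hA'.tendsto_at x
    have h3 := hB'.tendsto_comp hBc.continuousAt h2
    have h4 : (fun k => ((u k)⁻¹ : TK K hK).1 ((u k : E n ≃ₜ E n) x)) = fun _ => x := by
      funext k
      exact inv_apply_self (u k : E n ≃ₜ E n) x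
    rw [h4] at h3
    exact tendsto_nhds_unique h3 tendsto_const_nhds
  have hr : ∀ x, A (B x + x) + (B x + x) = x := by
    intro x
    have h2 : Tendsto (fun k => ((u k)⁻¹ : TK K hK).1 x) atTop (𝓝 (B x + x)) :=
      hB'.tendsto_at x
    have h3 := hA'.tendsto_comp hAc.continuousAt h2
    have h4 : (fun k => (u k : E n ≃ₜ E n) (((u k)⁻¹ : TK K hK).1 x)) = fun _ => x := by
      funext k
      exact apply_inv_self (u k : E n ≃ₜ E n) x
    rw [h4] at h3
    exact tendsto_nhds_unique h3 tendsto_const_nhds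
  set φ : E n ≃ₜ E n := ⟨⟨fun x => A x + x, fun x => B x + x, hl, hr⟩, hAc, hBc⟩ with hφ
  have hfix : ∀ x, x ∉ K → φ x = x := by
    intro x hx
    have h2 : Tendsto (fun k => (u k : E n ≃ₜ E n) x) atTop (𝓝 (A x + x)) := hA'.tendsto_at x
    have h3 : (fun k => (u k : E n ≃ₜ E n) x) = fun _ => x := funext fun k => (u k).2.1 x hx
    rw [h3] at h2
    exact tendsto_nhds_unique h2 tendsto_const_nhds
  exact ⟨⟨φ, lim_of_lim (fun k => (u k).2) hfix hA'⟩, tendsto_of hA'⟩

end Pool.Agent.X277.Ham
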